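import Pool.Agent.V1164.BRW.Proc

open Filter Topology MeasureTheory ProbabilityTheory
open scoped ENNReal

namespace Pool.Agent.V1164.BRW

set_option linter.unusedSectionVars false

variable {X : Type*} [Countable X]

/-! ### A criterion for uncountably many fixed points -/

theorem Zi_zero_le {μ : X → PMF (X →₀ ℕ)} (hnd : ∀ x, μ x 0 = 0) (S : Finset X) (x : X) :
    Zi μ S 0 x ≤ 0 := by
  refine Zi_le μ S (by simp) (w := fun _ => 0) zero_mem (fun y _ => ?_) (fun y _ => le_rfl) x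
  have : ∀ f : X →₀ ℕ, (μ y f).toReal * mon (fun _ : X => (0 : ℝ)) f = 0 := by
    intro f
    by_cases hf : f = 0
    · rw [hf, hnd]; simp
    · obtain ⟨u, hu⟩ : ∃ u, f u ≠ 0 := by
        by_contra hcon
        push Not at hcon
        exact hf (Finsupp.ext hcon)
      have h1 := mon_le_apply (zero_mem (X := X)) hu
      have h2 := mon_nonneg (fun x => (zero_mem (X := X) x).1) f
      have h3 : mon (fun _ : X => (0 : ℝ)) f = 0 := le_antisymm h1 h2
      rw [h3, mul_zero]
  simp only [G, this, tsum_zero, le_refl]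

theorem one_sub_mon_le {z : X → ℝ} (hz : z ∈ cube X) (f : X →₀ ℕ) :
    ENNReal.ofReal (1 - mon z f) ≤ lin (fun y => ENNReal.ofReal (1 - z y)) f := by
  classical
  have step : ∀ a b : ℝ, 0 ≤ a → a ≤ 1 → 0 ≤ b → b ≤ 1 →
      ENNReal.ofReal (1 - a * b) ≤ ENNReal.ofReal (1 - a) + ENNReal.ofReal (1 - b) := by
    intro a b ha ha1 hb hb1
    rw [← ENNReal.ofReal_add (by linarith) (by linarith)]
    apply ENNReal.ofReal_le_ofReal
    nlinarith
  induction f using Finsupp.induction_linear with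
  | zero => simp [mon_zero]
  | add f g hf hg =>
    rw [mon_add, lin_add]
    refine le_trans (step _ _ (mon_nonneg (fun x => (hz x).1) f) (mon_le_one hz f)
      (mon_nonneg (fun x => (hz x).1) g) (mon_le_one hz g)) (add_le_add hf hg)
  | single u k =>
    induction k with
    | zero => simp [mon_zero]
    | succ k ih =>
      have e : Finsupp.single u (k + 1) = Finsupp.single u k + Finsupp.single u 1 := by
        rw [← Finsupp.single_add]
      rw [e, mon_add, lin_add, mon_single, lin_single]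
      refine le_trans (step _ _ (mon_nonneg (fun x => (hz x).1) _) (mon_le_one hz _)
        (hz u).1 (hz u).2) (add_le_add ih le_rfl)

theorem one_sub_G_le {μ : X → PMF (X →₀ ℕ)} {z : X → ℝ} (hz : z ∈ cube X) (y : X) :
    ENNReal.ofReal (1 - G μ z y) ≤ Mn μ (fun y => ENNReal.ofReal (1 - z y)) y := by
  have h1 : 1 - G μ z y = ∑' f, (μ y f).toReal * (1 - mon z f) := by
    simp only [mul_sub, mul_one]
    rw [(weight_summable μ y).tsum_sub (G_summable μ hz y), weight_tsum]
    rfl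
  rw [h1, ENNReal.ofReal_tsum_of_nonneg]
  · unfold Mn
    apply ENNReal.tsum_le_tsum
    intro f
    rw [ENNReal.ofReal_mul (weight_nonneg μ y f), ENNReal.ofReal_toReal ((μ y).apply_ne_top f)]
    exact mul_le_mul_right (one_sub_mon_le hz f) _
  · intro f
    exact mul_nonneg (weight_nonneg μ y f) (by linarith [mon_le_one hz f])
  · have := (weight_summable μ y).sub (G_summable μ hz y)
    refine this.congr fun f => ?_
    ring

theorem Mn_mono (μ : X → PMF (X →₀ ℕ)) {h h' : X → ℝ≥0∞} (hh : ∀ y, h y ≤ h' y) (y : X) :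
    Mn μ h y ≤ Mn μ h' y := by
  unfold Mn
  apply ENNReal.tsum_le_tsum
  intro f
  exact mul_le_mul_right (Finset.sum_le_sum fun y _ => mul_le_mul_right (hh y) _) _

theorem Mn_smul (μ : X → PMF (X →₀ ℕ)) (c : ℝ≥0∞) (h : X → ℝ≥0∞) (y : X) :
    Mn μ (fun y => c * h y) y = c * Mn μ h y := by
  unfold Mn
  rw [← ENNReal.tsum_mul_left]
  apply tsum_congr
  intro f
  have : lin (fun y => c * h y) f = c * lin h f := by
    unfold lin Finsupp.sum
    rw [Finset.mul_sum]
    apply Finset.sum_congr rfl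
    intro y _
    ring
  rw [this]
  ring

theorem one_le_Zi {μ : X → PMF (X →₀ ℕ)} {h : X → ℝ≥0∞} {ρ : ℝ≥0∞} (hρ : ρ < 1)
    (h0 : ∀ y, h y ≠ 0) (ht : ∀ y, h y ≠ ∞) (hM : ∀ y, Mn μ h y ≤ ρ * h y)
    (S : Finset X) (x : X) : 1 ≤ Zi μ S 1 x := by
  have h11 : (1 : ℝ) ∈ Set.Icc (0 : ℝ) 1 := by simp
  have hz := Zi_mem μ S h11
  by_cases hx : x ∈ S
  swap
  · exact (Zi_of_notMem μ h11 hx).ge
  set R : X → ℝ≥0∞ := fun y => ENNReal.ofReal (1 - Zi μ S 1 y) with hR
  have hRo : ∀ y ∉ S, R y = 0 := by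
    intro y hy
    simp [hR, Zi_of_notMem μ h11 hy]
  have hRt : ∀ y, R y ≠ ∞ := fun y => ENNReal.ofReal_ne_top
  obtain ⟨ym, hym, hmax⟩ := Finset.exists_max_image S (fun y => R y / h y) ⟨x, hx⟩
  set c := R ym / h ym with hc
  have hct : c ≠ ∞ := (ENNReal.div_lt_top (hRt ym) (h0 ym)).ne
  have hle : ∀ y, R y ≤ c * h y := by
    intro y
    by_cases hy : y ∈ S
    · have := hmax y hy
      exact (ENNReal.div_le_iff (h0 y) (ht y)).1 this
    · rw [hRo y hy]; exact zero_le
  have h1 : R ym ≤ c * (ρ * h ym) := by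
    have h2 := one_sub_G_le (μ := μ) hz ym
    rw [Zi_of_mem μ h11 hym] at h2
    refine le_trans h2 (le_trans (Mn_mono μ hle ym) ?_)
    rw [Mn_smul]
    exact mul_le_mul_right (hM ym) _
  have hc0 : c = 0 := by
    by_contra hne
    have h3 : R ym = c * h ym := by
      rw [hc, ENNReal.div_mul_cancel (h0 ym) (ht ym)]
    rw [h3] at h1
    have h4 : h ym ≤ ρ * h ym := (ENNReal.mul_le_mul_iff_right hne hct).1 h1
    have h5 : ρ * h ym < 1 * h ym := (ENNReal.mul_lt_mul_iff_left (h0 ym) (ht ym)).2 hρ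
    rw [one_mul] at h5
    exact absurd h4 (not_le.2 h5)
  have h6 := hle x
  rw [hc0, zero_mul] at h6
  have h7 : R x = 0 := le_antisymm h6 zero_le
  simp only [hR, ENNReal.ofReal_eq_zero] at h7
  linarith

theorem FG_not_countable {μ : X → PMF (X →₀ ℕ)} {h : X → ℝ≥0∞} {ρ : ℝ≥0∞} (hρ : ρ < 1)
    (h0 : ∀ y, h y ≠ 0) (ht : ∀ y, h y ≠ ∞) (hM : ∀ y, Mn μ h y ≤ ρ * h y)
    (hnd : ∀ x, μ x 0 = 0) (x : X) : ¬ (FG μ).Countable :=
  not_countable μ x one_pos (fun S => Zi_zero_le hnd S x)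
    (fun S => one_le_Zi hρ h0 ht hM S x)

/-! ### Paths -/

theorem le_eta_succ {x : X} {ω : Draws X} {n : ℕ} {y : X} {i : ℕ} (h : Used x ω (n, y, i))
    (v : X) : ω (n, y, i) v ≤ eta x (n + 1) ω v := by
  have hi : i < eta x n ω y := h
  have hy : y ∈ (eta x n ω).support := Finsupp.mem_support_iff.2 (by omega)
  have e : eta x (n + 1) ω v = ∑ y ∈ (eta x n ω).support,
      ∑ i ∈ Finset.range (eta x n ω y), ω (n, y, i) v := by
    simp only [eta, Finsupp.sum]
    rw [Finset.sum_apply']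
    apply Finset.sum_congr rfl
    intro y _
    rw [Finset.sum_apply']
  rw [e]
  calc ω (n, y, i) v ≤ ∑ i ∈ Finset.range (eta x n ω y), ω (n, y, i) v :=
        Finset.single_le_sum (f := fun i => ω (n, y, i) v) (fun _ _ => Nat.zero_le _)
          (Finset.mem_range.2 hi)
    _ ≤ _ := Finset.single_le_sum
        (f := fun y => ∑ i ∈ Finset.range (eta x n ω y), ω (n, y, i) v)
        (fun _ _ => Nat.zero_le _) hy

theorem exists_parent {x : X} {ω : Draws X} {n : ℕ} {v : X} (h : eta x (n + 1) ω v ≠ 0) :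
    ∃ y i, Used x ω (n, y, i) ∧ ω (n, y, i) v ≠ 0 := by
  have e : eta x (n + 1) ω v = ∑ y ∈ (eta x n ω).support,
      ∑ i ∈ Finset.range (eta x n ω y), ω (n, y, i) v := by
    simp only [eta, Finsupp.sum]
    rw [Finset.sum_apply']
    apply Finset.sum_congr rfl
    intro y _
    rw [Finset.sum_apply']
  rw [e] at h
  obtain ⟨y, _, hy⟩ := Finset.exists_ne_zero_of_sum_ne_zero h
  obtain ⟨i, hi, hiv⟩ := Finset.exists_ne_zero_of_sum_ne_zero hy
  exact ⟨y, i, Finset.mem_range.1 hi, hiv⟩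

theorem used_zero {x : X} {ω : Draws X} {n : ℕ} {y : X} (h : eta x n ω y ≠ 0) :
    Used x ω (n, y, 0) := Nat.pos_of_ne_zero h

theorem eta_zero (x : X) (ω : Draws X) : eta x 0 ω x ≠ 0 := by simp [eta]

theorem eta_ne_of_used {x : X} {ω : Draws X} {n : ℕ} {y : X} {i : ℕ} (h : Used x ω (n, y, i)) :
    eta x n ω y ≠ 0 := by
  have : i < eta x n ω y := h
  omega

end Pool.Agent.V1164.BRW
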