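import Pool.Agent.V1164.BRW.Gen

open Filter Topology

namespace Pool.Agent.V1164.BRW

variable {X : Type*}

/-- a particle at `x` can have a child at `y` -/
def Edge (μ : X → PMF (X →₀ ℕ)) (x y : X) : Prop := ∃ f, μ x f ≠ 0 ∧ f y ≠ 0

/-- irreducibility: every site can be reached from every site -/
def Irreducible (μ : X → PMF (X →₀ ℕ)) : Prop :=
  ∀ x y, Relation.ReflTransGen (Edge μ) x y

/-- for at least one site, the number of children is not almost surely one -/
def NonSingular (μ : X → PMF (X →₀ ℕ)) : Prop :=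
  ∃ x, (μ x).toOuterMeasure {f | (f.sum fun _ k => k) = 1} < 1

theorem NonSingular.exists {μ : X → PMF (X →₀ ℕ)} (h : NonSingular μ) :
    ∃ x, ∃ f, μ x f ≠ 0 ∧ (f.sum fun _ k => k) ≠ 1 := by
  obtain ⟨x, hx⟩ := h
  refine ⟨x, ?_⟩
  by_contra hcon
  push Not at hcon
  have : (μ x).toOuterMeasure {f | (f.sum fun _ k => k) = 1} = 1 := by
    rw [PMF.toOuterMeasure_apply_eq_one_iff]
    intro f hf
    exact hcon f ((PMF.mem_support_iff _ _).1 hf)
  exact hx.ne this

/-! ### values `1` propagate -/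

theorem eq_of_tsum_eq {μ : X → PMF (X →₀ ℕ)} {x : X} {φ ψ : (X →₀ ℕ) → ℝ}
    (hφ : ∀ f, |φ f| ≤ 1) (hψ : ∀ f, |ψ f| ≤ 1) (hle : ∀ f, μ x f ≠ 0 → φ f ≤ ψ f)
    (heq : ∑' f, (μ x f).toReal * ψ f ≤ ∑' f, (μ x f).toReal * φ f) :
    ∀ f, μ x f ≠ 0 → φ f = ψ f := by
  intro f hf
  by_contra hne
  have hlt : φ f < ψ f := lt_of_le_of_ne (hle f hf) hne
  have h1 : ∑' f, (μ x f).toReal * φ f < ∑' f, (μ x f).toReal * ψ f := by
    refine Summable.tsum_lt_tsum (i := f) (fun g => ?_) ?_ (summable_bdd μ x hφ)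
      (summable_bdd μ x hψ)
    · by_cases hg : μ x g = 0
      · simp [hg]
      · exact mul_le_mul_of_nonneg_left (hle g hg) (weight_nonneg μ x g)
    · exact mul_lt_mul_of_pos_left hlt (weight_pos hf)
  exact absurd heq (not_le.2 h1)

theorem eq_one_of_edge {μ : X → PMF (X →₀ ℕ)} {z : X → ℝ} (hz : z ∈ cube X) {x y : X}
    (h : G μ z x = 1) (hxy : Edge μ x y) : z y = 1 := by
  obtain ⟨f, hf, hfy⟩ := hxy
  have h1 := eq_of_tsum_eq (μ := μ) (x := x) (φ := mon z) (ψ := fun _ => 1) (abs_mon_le hz)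
    (fun _ => by simp) (fun f _ => mon_le_one hz f) (by
      simp only [mul_one]
      rw [weight_tsum]
      exact h.ge) f hf
  have h2 := mon_le_apply hz hfy
  rw [h1] at h2
  exact le_antisymm (hz y).2 h2

theorem eq_one_of_FG {μ : X → PMF (X →₀ ℕ)} (hirr : Irreducible μ) {z : X → ℝ}
    (hz : z ∈ FG μ) {x : X} (hx : z x = 1) : z = fun _ => 1 := by
  funext y
  have := hirr x y
  induction this with
  | refl => exact hx
  | tail _ hbc ih =>
    refine eq_one_of_edge hz.1 ?_ hbc
    rw [hz.2]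
    exact ih

/-! ### Strongly connected finite sets -/

/-- edges with endpoint in `S` -/
def EdgeIn (μ : X → PMF (X →₀ ℕ)) (S : Finset X) (x y : X) : Prop := Edge μ x y ∧ y ∈ S

/-- `S` is strongly connected within itself -/
def SC (μ : X → PMF (X →₀ ℕ)) (S : Finset X) : Prop :=
  ∀ a ∈ S, ∀ b ∈ S, Relation.ReflTransGen (EdgeIn μ S) a b

theorem EdgeIn.mono {μ : X → PMF (X →₀ ℕ)} {S S' : Finset X} (h : S ⊆ S') {x y : X}
    (hxy : EdgeIn μ S x y) : EdgeIn μ S' x y := ⟨hxy.1, h hxy.2⟩

theorem exists_path {μ : X → PMF (X →₀ ℕ)} {a b : X}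
    (h : Relation.ReflTransGen (Edge μ) a b) :
    ∃ P : Finset X, a ∈ P ∧ b ∈ P ∧ ∀ w ∈ P, Relation.ReflTransGen (EdgeIn μ P) a w ∧
      Relation.ReflTransGen (EdgeIn μ P) w b := by
  classical
  induction h with
  | refl =>
    refine ⟨{a}, by simp, by simp, fun w hw => ?_⟩
    rw [Finset.mem_singleton] at hw
    subst hw
    exact ⟨Relation.ReflTransGen.refl, Relation.ReflTransGen.refl⟩
  | @tail b c _ hbc ih =>
    obtain ⟨P, haP, hbP, hP⟩ := ih
    have hsub : P ⊆ insert c P := Finset.subset_insert c P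
    have hlift : ∀ u v, Relation.ReflTransGen (EdgeIn μ P) u v →
        Relation.ReflTransGen (EdgeIn μ (insert c P)) u v := fun u v huv =>
      Relation.ReflTransGen.mono (fun _ _ h => EdgeIn.mono hsub h) _ _ huv
    have hstep : EdgeIn μ (insert c P) b c := ⟨hbc, Finset.mem_insert_self c P⟩
    refine ⟨insert c P, hsub haP, Finset.mem_insert_self c P, fun w hw => ?_⟩
    rw [Finset.mem_insert] at hw
    rcases hw with rfl | hw
    · exact ⟨(hlift _ _ (hP b hbP).1).tail hstep, Relation.ReflTransGen.refl⟩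
    · exact ⟨hlift _ _ (hP w hw).1, (hlift _ _ (hP w hw).2).tail hstep⟩

theorem exists_SC {μ : X → PMF (X →₀ ℕ)} (hirr : Irreducible μ) (A : Finset X) :
    ∃ S : Finset X, A ⊆ S ∧ SC μ S := by
  classical
  choose P haP hbP hP using fun a b => exists_path (hirr a b)
  let S : Finset X := A.biUnion fun a => A.biUnion fun b => P a b
  have hsub : ∀ a ∈ A, ∀ b ∈ A, P a b ⊆ S := by
    intro a ha b hb
    refine subset_trans ?_ (Finset.subset_biUnion_of_mem (fun a => A.biUnion fun b => P a b) ha)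
    exact Finset.subset_biUnion_of_mem (fun b => P a b) hb
  have hlift : ∀ a ∈ A, ∀ b ∈ A, ∀ u v, Relation.ReflTransGen (EdgeIn μ (P a b)) u v →
      Relation.ReflTransGen (EdgeIn μ S) u v := fun a ha b hb u v huv =>
    Relation.ReflTransGen.mono (fun _ _ h => EdgeIn.mono (hsub a ha b hb) h) _ _ huv
  refine ⟨S, fun a ha => hsub a ha a ha (haP a a), fun u hu v hv => ?_⟩
  simp only [S, Finset.mem_biUnion] at hu hv
  obtain ⟨a, ha, b, hb, hu⟩ := hu
  obtain ⟨a', ha', b', hb', hv⟩ := hv
  have h1 := hlift a ha b hb _ _ (hP a b u hu).2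
  have h2 := hlift b hb a' ha' _ _ (hP b a' b (haP b a')).2
  have h3 := hlift a' ha' b' hb' _ _ (hP a' b' v hv).1
  exact (h1.trans h2).trans h3

theorem forall_of_SC {μ : X → PMF (X →₀ ℕ)} {S : Finset X} (hS : SC μ S) {p : X → Prop} {a : X}
    (ha : a ∈ S) (hpa : p a) (hstep : ∀ x ∈ S, p x → ∀ y ∈ S, Edge μ x y → p y) :
    ∀ b ∈ S, p b := by
  intro b hb
  have key : ∀ b, Relation.ReflTransGen (EdgeIn μ S) a b → b ∈ S ∧ p b := by
    intro b hab
    induction hab with
    | refl => exact ⟨ha, hpa⟩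
    | tail _ h ih => exact ⟨h.2, hstep _ ih.1 ih.2 _ h.2 h.1⟩
  exact (key b (hS a ha b hb)).2

/-! ### The Jensen inequality for monomials -/

/-- the point `q + s (1 - q)` -/
noncomputable def seg (q : X → ℝ) (s : ℝ) : X → ℝ := fun y => q y + s * (1 - q y)

theorem seg_mem {q : X → ℝ} (hq : q ∈ cube X) {s : ℝ} (h0 : 0 ≤ s) (h1 : s ≤ 1) :
    seg q s ∈ cube X := by
  intro x
  have := hq x
  unfold seg
  constructor <;> nlinarith [this.1, this.2]

theorem mon_seg_le {q : X → ℝ} (hq : q ∈ cube X) {s : ℝ} (h0 : 0 ≤ s) (h1 : s ≤ 1)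
    (f : X →₀ ℕ) : mon (seg q s) f ≤ (1 - s) * mon q f + s := by
  classical
  induction f using Finsupp.induction_linear with
  | zero => simp [mon_zero]
  | add f g hf hg =>
    rw [mon_add, mon_add]
    have a0 := mon_nonneg (fun x => (hq x).1) f
    have a1 := mon_le_one hq f
    have b0 := mon_nonneg (fun x => (hq x).1) g
    have b1 := mon_le_one hq g
    have c0 := mon_nonneg (fun x => (seg_mem hq h0 h1 x).1) f
    have d0 := mon_nonneg (fun x => (seg_mem hq h0 h1 x).1) g
    calc mon (seg q s) f * mon (seg q s) g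
        ≤ ((1 - s) * mon q f + s) * ((1 - s) * mon q g + s) :=
          mul_le_mul hf hg d0 (by nlinarith)
      _ ≤ (1 - s) * (mon q f * mon q g) + s := by
          have : 0 ≤ s * (1 - s) * ((1 - mon q f) * (1 - mon q g)) := by
            apply mul_nonneg (mul_nonneg h0 (by linarith))
            exact mul_nonneg (by linarith) (by linarith)
          nlinarith
  | single u k =>
    induction k with
    | zero => simp [mon_zero]
    | succ k ih =>
      have e : Finsupp.single u (k + 1) = Finsupp.single u k + Finsupp.single u 1 := by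
        rw [← Finsupp.single_add]
      rw [e, mon_add, mon_add, mon_single, mon_single]
      have a0 := mon_nonneg (fun x => (hq x).1) (Finsupp.single u k)
      have a1 := mon_le_one hq (Finsupp.single u k)
      have b := hq u
      have hs : seg q s u = (1 - s) * q u + s := by unfold seg; ring
      have hs0 := (seg_mem hq h0 h1 u).1
      calc mon (seg q s) (Finsupp.single u k) * seg q s u
          ≤ ((1 - s) * mon q (Finsupp.single u k) + s) * ((1 - s) * q u + s) := by
            rw [hs] at hs0 ⊢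
            exact mul_le_mul_of_nonneg_right ih hs0
        _ ≤ (1 - s) * (mon q (Finsupp.single u k) * q u) + s := by
            have : 0 ≤ s * (1 - s) * ((1 - mon q (Finsupp.single u k)) * (1 - q u)) := by
              apply mul_nonneg (mul_nonneg h0 (by linarith))
              exact mul_nonneg (by linarith) (by linarith [b.2])
            nlinarith

/-- strictness when there are two particles where `q < 1` -/
theorem mon_seg_lt {q : X → ℝ} (hq : q ∈ cube X) {s : ℝ} (h0 : 0 < s) (h1 : s < 1)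
    {f g : X →₀ ℕ} {u v : X} (hfg : f = g + Finsupp.single u 1 + Finsupp.single v 1)
    (hu : q u < 1) (hv : q v < 1) :
    mon (seg q s) f < (1 - s) * mon q f + s := by
  rw [hfg, mon_add _ _ (Finsupp.single v 1), mon_add _ _ (Finsupp.single v 1), mon_single,
    mon_single]
  have h2 := mon_seg_le hq h0.le h1.le (g + Finsupp.single u 1)
  have h3 : mon q (g + Finsupp.single u 1) < 1 := by
    refine lt_of_le_of_lt (mon_le_apply hq (u := u) ?_) hu
    simp
  have hs : seg q s v = (1 - s) * q v + s := by unfold seg; ring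
  have hs0 := (seg_mem hq h0.le h1.le v).1
  rw [hs] at hs0 ⊢
  have h4 : 0 < s * (1 - s) * ((1 - mon q (g + Finsupp.single u 1)) * (1 - q v)) := by
    apply mul_pos (mul_pos h0 (by linarith))
    exact mul_pos (by linarith) (by linarith)
  have h5 := mul_le_mul_of_nonneg_right h2 hs0
  nlinarith

/-! ### The comparison with the local extinction probability -/

/-- the number of particles of `f` in `S` -/
def cnt (S : Finset X) (f : X →₀ ℕ) : ℕ := ∑ y ∈ S, f y

theorem cnt_pos_split {S : Finset X} {f : X →₀ ℕ} (h : cnt S f ≠ 0) :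
    ∃ u ∈ S, f u ≠ 0 := by
  by_contra hcon
  push Not at hcon
  exact h (Finset.sum_eq_zero hcon)

theorem two_split {S : Finset X} {f : X →₀ ℕ} (h : 2 ≤ cnt S f) :
    ∃ g : X →₀ ℕ, ∃ u ∈ S, ∃ v ∈ S, f = g + Finsupp.single u 1 + Finsupp.single v 1 := by
  classical
  obtain ⟨v, hv, hfv⟩ := cnt_pos_split (S := S) (f := f) (by omega)
  obtain ⟨f', rfl⟩ := exists_split hfv
  have h2 : cnt S (f' + Finsupp.single v 1) = cnt S f' + 1 := by
    unfold cnt
    simp only [Finsupp.coe_add, Pi.add_apply, Finset.sum_add_distrib]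
    congr 1
    rw [Finset.sum_eq_single_of_mem v hv]
    · simp
    · intro b _ hb
      simp [hb.symm]
  obtain ⟨u, hu, hfu⟩ := cnt_pos_split (S := S) (f := f') (by omega)
  obtain ⟨g, rfl⟩ := exists_split hfu
  exact ⟨g, u, hu, v, hv, rfl⟩

/-- if `q = 1` outside `S`, a configuration with a single particle in `S`, at `u`, has weight
`q u` -/
theorem mon_of_cnt_one {S : Finset X} {q : X → ℝ} (hq : ∀ y ∉ S, q y = 1) {f : X →₀ ℕ}
    (hf : cnt S f ≤ 1) {u : X} (hu : u ∈ S) (hfu : f u ≠ 0) : mon q f = q u := by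
  classical
  obtain ⟨g, rfl⟩ := exists_split hfu
  rw [mon_add, mon_single]
  have hg : mon q g = 1 := by
    apply Finset.prod_eq_one
    intro y hy
    by_cases hyS : y ∈ S
    · exfalso
      rw [Finsupp.mem_support_iff] at hy
      have h1 : 2 ≤ cnt S (g + Finsupp.single u 1) := by
        unfold cnt
        simp only [Finsupp.coe_add, Pi.add_apply, Finset.sum_add_distrib]
        have h2 : 1 ≤ ∑ y ∈ S, g y :=
          le_trans (by omega : 1 ≤ g y) (Finset.single_le_sum (fun _ _ => Nat.zero_le _) hyS)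
        have h3 : 1 ≤ ∑ y ∈ S, (Finsupp.single u 1 : X →₀ ℕ) y :=
          le_trans (by simp : 1 ≤ (Finsupp.single u 1 : X →₀ ℕ) u)
            (Finset.single_le_sum (f := fun y => (Finsupp.single u 1 : X →₀ ℕ) y)
              (fun _ _ => Nat.zero_le _) hu)
        omega
      omega
    · show q y ^ g y = 1
      rw [hq y hyS, one_pow]
  rw [hg, one_mul]

theorem mon_of_cnt_zero {S : Finset X} {q : X → ℝ} (hq : ∀ y ∉ S, q y = 1) {f : X →₀ ℕ}
    (hf : cnt S f = 0) : mon q f = 1 := by
  apply Finset.prod_eq_one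
  intro y hy
  by_cases hyS : y ∈ S
  · exfalso
    rw [Finsupp.mem_support_iff] at hy
    exact hy (Finset.sum_eq_zero_iff.1 hf y hyS)
  · show q y ^ f y = 1
    rw [hq y hyS, one_pow]

theorem le_Zi_one {μ : X → PMF (X →₀ ℕ)} {S : Finset X} (hS : SC μ S)
    (hns : ∃ y ∈ S, ∃ f, μ y f ≠ 0 ∧ cnt S f ≠ 1) {z : X → ℝ} (hz : z ∈ cube X)
    (hsub : ∀ y ∈ S, z y ≤ G μ z y) (hlt : ∀ y ∈ S, z y < 1) :
    ∀ y ∈ S, z y ≤ Zi μ S 1 y := by
  classical
  have h11 : (1 : ℝ) ∈ Set.Icc (0 : ℝ) 1 := by simp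
  set q := Zi μ S 1 with hqdef
  have hq : q ∈ cube X := Zi_mem μ S h11
  have hqS : ∀ y ∈ S, G μ q y = q y := fun y hy => Zi_of_mem μ h11 hy
  have hqo : ∀ y ∉ S, q y = 1 := fun y hy => Zi_of_notMem μ h11 hy
  by_cases hone : ∃ y ∈ S, q y = 1
  · obtain ⟨y0, hy0, hq0⟩ := hone
    have := forall_of_SC (p := fun y => q y = 1) hS hy0 hq0 (fun x hx hqx y _ hxy =>
      eq_one_of_edge hq (by rw [hqS x hx]; exact hqx) hxy)
    intro y hy
    rw [this y hy]
    exact (hz y).2
  push Not at hone
  have hqlt : ∀ y ∈ S, q y < 1 := fun y hy => lt_of_le_of_ne (hq y).2 (hone y hy)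
  -- the maximum of the two sub-solutions
  let w : X → ℝ := fun y => if y ∈ S then max (z y) (q y) else 1
  have hw : w ∈ cube X := by
    intro y
    simp only [w]
    split_ifs
    · exact ⟨le_trans (hz y).1 (le_max_left _ _), max_le (hz y).2 (hq y).2⟩
    · exact ⟨zero_le_one, le_rfl⟩
  have hzw : ∀ y, z y ≤ w y := by
    intro y
    simp only [w]
    split_ifs
    · exact le_max_left _ _
    · exact (hz y).2
  have hqw : ∀ y, q y ≤ w y := by
    intro y
    simp only [w]
    split_ifs
    · exact le_max_right _ _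
    · exact (hq y).2
  have hwsub : ∀ y ∈ S, w y ≤ G μ w y := by
    intro y hy
    have e : w y = max (z y) (q y) := by simp [w, hy]
    rw [e]
    apply max_le
    · exact le_trans (hsub y hy) (G_mono μ hz hw hzw y)
    · rw [← hqS y hy]
      exact G_mono μ hq hw hqw y
  have hwlt : ∀ y ∈ S, w y < 1 := by
    intro y hy
    simp only [w, hy, if_true]
    exact max_lt (hlt y hy) (hqlt y hy)
  -- the extremal ratio
  obtain ⟨ym, hym, hmax⟩ := Finset.exists_max_image S (fun y => (w y - q y) / (1 - q y))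
    (by obtain ⟨y, hy, _⟩ := hns; exact ⟨y, hy⟩)
  set s := (w ym - q ym) / (1 - q ym) with hs
  have hle : ∀ y ∈ S, w y ≤ seg q s y := by
    intro y hy
    have h1 := hmax y hy
    have h2 : 0 < 1 - q y := by linarith [hqlt y hy]
    rw [div_le_iff₀ h2] at h1
    unfold seg
    linarith
  by_cases hs0 : s ≤ 0
  · intro y hy
    refine le_trans (hzw y) (le_trans (hle y hy) ?_)
    have h2 : 0 < 1 - q y := by linarith [hqlt y hy]
    unfold seg
    nlinarith
  exfalso
  push Not at hs0
  have hm : 0 < 1 - q ym := by linarith [hqlt ym hym]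
  have hs1 : s < 1 := by
    rw [hs, div_lt_one hm]
    linarith [hwlt ym hym]
  have hmeq : w ym = seg q s ym := by
    unfold seg
    rw [hs, div_mul_cancel₀ _ hm.ne']
    ring
  have hle' : ∀ y, w y ≤ seg q s y := by
    intro y
    by_cases hy : y ∈ S
    · exact hle y hy
    · unfold seg
      simp [w, hy, hqo y hy]
  have hseg : seg q s ∈ cube X := seg_mem hq hs0.le hs1.le
  have hsegpos : ∀ y, 0 < seg q s y := by
    intro y
    have := hq y
    unfold seg
    by_cases h : q y = 0
    · rw [h]; linarith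
    · have : 0 < q y := lt_of_le_of_ne this.1 (Ne.symm h)
      have h2 : 0 ≤ s * (1 - q y) := mul_nonneg hs0.le (by linarith [(hq y).2])
      linarith
  -- Jensen for `G`
  have hJ : ∀ y, G μ (seg q s) y ≤ (1 - s) * G μ q y + s := by
    intro y
    have e : (1 - s) * G μ q y + s = ∑' f, (μ y f).toReal * ((1 - s) * mon q f + s) := by
      have h1 : ∀ f, (μ y f).toReal * ((1 - s) * mon q f + s) =
          (1 - s) * ((μ y f).toReal * mon q f) + (μ y f).toReal * s := by intro f; ring
      simp only [h1]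
      rw [Summable.tsum_add ((G_summable μ hq y).mul_left _) ((weight_summable μ y).mul_right _),
        tsum_mul_left, tsum_mul_right, weight_tsum, one_mul]
      rfl
    rw [e]
    refine (G_summable μ hseg y).tsum_le_tsum (fun f => mul_le_mul_of_nonneg_left
      (mon_seg_le hq hs0.le hs1.le f) (weight_nonneg μ y f)) (summable_bdd μ y fun f => ?_)
    have a0 := mon_nonneg (fun x => (hq x).1) f
    have a1 := mon_le_one hq f
    rw [abs_of_nonneg (by nlinarith)]
    nlinarith
  -- consequences at an extremal point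
  have hext : ∀ y ∈ S, w y = seg q s y → (∀ f, μ y f ≠ 0 → cnt S f ≤ 1) ∧
      ∀ u ∈ S, Edge μ y u → w u = seg q s u := by
    intro y hy hwy
    have c1 : w y ≤ G μ w y := hwsub y hy
    have c2 : G μ w y ≤ G μ (seg q s) y := G_mono μ hw hseg hle' y
    have c3 : G μ (seg q s) y ≤ (1 - s) * G μ q y + s := hJ y
    have c4 : (1 - s) * G μ q y + s = seg q s y := by rw [hqS y hy]; unfold seg; ring
    have e1 : G μ (seg q s) y = (1 - s) * G μ q y + s := by linarith
    have e2 : G μ (seg q s) y ≤ G μ w y := by linarith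
    constructor
    · intro f hf
      by_contra hcon
      push Not at hcon
      obtain ⟨g, u, hu, v, hv, hfg⟩ := two_split (S := S) (f := f) hcon
      have hlt' := mon_seg_lt hq hs0 hs1 hfg (hqlt u hu) (hqlt v hv)
      have h1 := eq_of_tsum_eq (μ := μ) (x := y) (φ := mon (seg q s))
        (ψ := fun f => (1 - s) * mon q f + s) (abs_mon_le hseg) (fun f => by
          have a0 := mon_nonneg (fun x => (hq x).1) f
          have a1 := mon_le_one hq f
          rw [abs_of_nonneg (by nlinarith)]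
          nlinarith) (fun f _ => mon_seg_le hq hs0.le hs1.le f) (by
          have e : ∑' f, (μ y f).toReal * ((1 - s) * mon q f + s) = (1 - s) * G μ q y + s := by
            have h1 : ∀ f, (μ y f).toReal * ((1 - s) * mon q f + s) =
                (1 - s) * ((μ y f).toReal * mon q f) + (μ y f).toReal * s := by intro f; ring
            simp only [h1]
            rw [Summable.tsum_add ((G_summable μ hq y).mul_left _)
              ((weight_summable μ y).mul_right _), tsum_mul_left, tsum_mul_right, weight_tsum,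
              one_mul]
            rfl
          rw [e]
          exact e1.ge) f hf
      exact absurd h1 hlt'.ne
    · intro u _ hyu
      obtain ⟨f, hf, hfu⟩ := hyu
      have h1 := eq_of_tsum_eq (μ := μ) (x := y) (φ := mon w) (ψ := mon (seg q s))
        (abs_mon_le hw) (abs_mon_le hseg)
        (fun f _ => mon_mono (fun x => (hw x).1) hle' f) e2 f hf
      obtain ⟨g, rfl⟩ := exists_split hfu
      rw [mon_add, mon_add, mon_single, mon_single] at h1
      have h2 := mon_mono (fun x => (hw x).1) hle' g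
      have h3 := mon_pos hsegpos g
      apply le_antisymm (hle' u)
      have h4 : mon (seg q s) g * seg q s u ≤ mon (seg q s) g * w u := by
        rw [← h1]
        exact mul_le_mul_of_nonneg_right h2 (hw u).1
      exact le_of_mul_le_mul_left h4 h3
  have hall : ∀ y ∈ S, w y = seg q s y :=
    forall_of_SC (p := fun y => w y = seg q s y) hS hym hmeq
      (fun x hx hpx y hy hxy => (hext x hx hpx).2 y hy hxy)
  have hcnt : ∀ y ∈ S, ∀ f, μ y f ≠ 0 → cnt S f ≤ 1 := fun y hy => (hext y hy (hall y hy)).1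
  -- the minimum of `q`
  obtain ⟨y1, hy1, hmin⟩ := Finset.exists_min_image S q ⟨ym, hym⟩
  have hge : ∀ y ∈ S, ∀ f, μ y f ≠ 0 → q y1 ≤ mon q f := by
    intro y hy f hf
    by_cases hc : cnt S f = 0
    · rw [mon_of_cnt_zero hqo hc]; exact (hq y1).2
    · obtain ⟨u, hu, hfu⟩ := cnt_pos_split hc
      rw [mon_of_cnt_one hqo (hcnt y hy f hf) hu hfu]
      exact hmin u hu
  have hmin2 : ∀ y ∈ S, q y = q y1 → ∀ f, μ y f ≠ 0 → mon q f = q y1 := by
    intro y hy hqy f hf
    have h1 := eq_of_tsum_eq (μ := μ) (x := y) (φ := fun _ => q y1) (ψ := mon q)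
      (fun _ => by rw [abs_of_nonneg (hq y1).1]; exact (hq y1).2) (abs_mon_le hq)
      (fun f hf => hge y hy f hf) (by
        rw [tsum_mul_right, weight_tsum, one_mul]
        have := hqS y hy
        rw [hqy] at this
        exact this.le) f hf
    exact h1.symm
  have hall2 : ∀ y ∈ S, q y = q y1 :=
    forall_of_SC (p := fun y => q y = q y1) hS hy1 rfl (fun x hx hqx y hy hxy => by
      obtain ⟨f, hf, hfy⟩ := hxy
      have h1 := hmin2 x hx hqx f hf
      rw [mon_of_cnt_one hqo (hcnt x hx f hf) hy hfy] at h1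
      exact h1)
  obtain ⟨y, hy, f, hf, hne⟩ := hns
  have h1 := hmin2 y hy (hall2 y hy) f hf
  have h2 := hcnt y hy f hf
  have h3 : cnt S f = 0 := by omega
  rw [mon_of_cnt_zero hqo h3] at h1
  exact absurd h1.symm (hqlt y1 hy1).ne

/-! ### The dichotomy -/

/-- the extinction probability, the smallest fixed point -/
noncomputable def qbar (μ : X → PMF (X →₀ ℕ)) (x : X) : ℝ := ⨆ m : ℕ, ((G μ)^[m] fun _ => 0) x

theorem iter_mem (μ : X → PMF (X →₀ ℕ)) (m : ℕ) : (G μ)^[m] (fun _ => 0) ∈ cube X := by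
  induction m with
  | zero => exact zero_mem
  | succ m ih => rw [Function.iterate_succ_apply']; exact G_mem μ ih

theorem iter_le_succ (μ : X → PMF (X →₀ ℕ)) (m : ℕ) :
    ∀ x, (G μ)^[m] (fun _ => 0) x ≤ (G μ)^[m + 1] (fun _ => 0) x := by
  induction m with
  | zero => intro x; exact (iter_mem μ 1 x).1
  | succ m ih =>
    intro x
    rw [Function.iterate_succ_apply', Function.iterate_succ_apply' _ (m + 1)]
    exact G_mono μ (iter_mem μ m) (iter_mem μ (m + 1)) ih x

theorem iter_bdd (μ : X → PMF (X →₀ ℕ)) (x : X) :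
    BddAbove (Set.range fun m : ℕ => (G μ)^[m] (fun _ => 0) x) :=
  ⟨1, by rintro _ ⟨m, rfl⟩; exact (iter_mem μ m x).2⟩

theorem iter_tendsto (μ : X → PMF (X →₀ ℕ)) (x : X) :
    Tendsto (fun m : ℕ => (G μ)^[m] (fun _ => 0) x) atTop (𝓝 (qbar μ x)) :=
  tendsto_atTop_ciSup (monotone_nat_of_le_succ fun m => iter_le_succ μ m x) (iter_bdd μ x)

theorem qbar_mem (μ : X → PMF (X →₀ ℕ)) : qbar μ ∈ cube X :=
  fun x => ⟨le_ciSup_of_le (iter_bdd μ x) 0 le_rfl, ciSup_le fun m => (iter_mem μ m x).2⟩

theorem G_qbar (μ : X → PMF (X →₀ ℕ)) (x : X) : G μ (qbar μ) x = qbar μ x := by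
  have h1 := G_tendsto μ (iter_mem μ) (iter_tendsto μ) x
  have h2 := (tendsto_add_atTop_iff_nat 1).2 (iter_tendsto μ x)
  refine tendsto_nhds_unique h1 (h2.congr fun m => ?_)
  rw [Function.iterate_succ_apply']

theorem qbar_le (μ : X → PMF (X →₀ ℕ)) {z : X → ℝ} (hz : z ∈ FG μ) (x : X) : qbar μ x ≤ z x := by
  apply ciSup_le
  intro m
  revert x
  induction m with
  | zero => exact fun x => (hz.1 x).1
  | succ m ih =>
    intro x
    rw [Function.iterate_succ_apply', ← hz.2]
    exact G_mono μ (iter_mem μ m) hz.1 ih x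

/-- **Dichotomy.** For an irreducible nonsingular branching random walk the set of fixed points is
either contained in `{qbar, 1}` or uncountable. -/
theorem dichotomy {μ : X → PMF (X →₀ ℕ)} (hirr : Irreducible μ) (hns : NonSingular μ) :
    FG μ ⊆ {qbar μ, fun _ => 1} ∨ ¬ (FG μ).Countable := by
  classical
  have h00 : (0 : ℝ) ∈ Set.Icc (0 : ℝ) 1 := by simp
  have h11 : (1 : ℝ) ∈ Set.Icc (0 : ℝ) 1 := by simp
  by_cases H : ∃ x, ∃ b, qbar μ x < b ∧ ∀ S : Finset X, b ≤ Zi μ S 1 x
  · right
    obtain ⟨x, b, hb, hS⟩ := H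
    refine not_countable μ x hb (fun S => ?_) hS
    exact Zi_le μ S h00 (qbar_mem μ) (fun y _ => (G_qbar μ y).le) (fun y _ => (qbar_mem μ y).1) x
  · left
    push Not at H
    intro z hz
    by_cases hz1 : z = fun _ => 1
    · right; exact hz1
    left
    have hlt : ∀ x, z x < 1 := by
      intro x
      refine lt_of_le_of_ne (hz.1 x).2 fun h => hz1 (eq_one_of_FG hirr hz h)
    obtain ⟨y0, f0, hf0, hne⟩ := hns.exists
    show z = qbar μ
    funext x
    apply le_antisymm _ (qbar_le μ hz x)
    apply le_of_forall_gt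
    intro b hb
    obtain ⟨S', hS'⟩ := H x b hb
    obtain ⟨S, hsub, hSC⟩ := exists_SC hirr (insert x (insert y0 (S' ∪ f0.support)))
    have hx : x ∈ S := hsub (by simp)
    have hy0 : y0 ∈ S := hsub (by simp)
    have hS'S : S' ⊆ S := fun y hy => hsub (by simp [hy])
    have hf0S : f0.support ⊆ S := fun y hy => hsub (by
      rw [Finset.mem_insert, Finset.mem_insert, Finset.mem_union]
      exact Or.inr (Or.inr (Or.inr hy)))
    have hcnt : cnt S f0 = f0.sum fun _ k => k := by
      unfold cnt Finsupp.sum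
      symm
      apply Finset.sum_subset hf0S
      intro y _ hy
      exact Finsupp.notMem_support_iff.1 hy
    have h1 := le_Zi_one hSC ⟨y0, hy0, f0, hf0, by rw [hcnt]; exact hne⟩ hz.1
      (fun y _ => by rw [hz.2]) (fun y _ => hlt y) x hx
    have h2 : Zi μ S 1 x ≤ Zi μ S' 1 x := by
      apply Zi_le μ S h11 (Zi_mem μ S' h11)
      · intro y _
        by_cases hy' : y ∈ S'
        · exact (Zi_of_mem μ h11 hy').le
        · rw [Zi_of_notMem μ h11 hy']
          exact G_le_one μ (Zi_mem μ S' h11) y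
      · intro y hy
        rw [Zi_of_notMem μ h11 (fun h => hy (hS'S h))]
    linarith

theorem finite_or_not_countable {μ : X → PMF (X →₀ ℕ)} (hirr : Irreducible μ)
    (hns : NonSingular μ) : (FG μ).Finite ∨ ¬ (FG μ).Countable := by
  rcases dichotomy hirr hns with h | h
  · left; exact (Set.toFinite _).subset h
  · right; exact h

end Pool.Agent.V1164.BRW
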