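import Mathlib

open Filter Topology

namespace Pool.Agent.V1164.BRW

variable {X : Type*}

/-- `∏_y z(y)^{f(y)}` -/
noncomputable def mon (z : X → ℝ) (f : X →₀ ℕ) : ℝ := f.prod fun y k => z y ^ k

/-- The generating function of a branching random walk with offspring laws `μ`. -/
noncomputable def G (μ : X → PMF (X →₀ ℕ)) (z : X → ℝ) (x : X) : ℝ :=
  ∑' f : X →₀ ℕ, (μ x f).toReal * mon z f

/-- The unit cube. -/
def cube (X : Type*) : Set (X → ℝ) := {z | ∀ x, 0 ≤ z x ∧ z x ≤ 1}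

/-- The fixed points of the generating function in the unit cube. -/
def FG (μ : X → PMF (X →₀ ℕ)) : Set (X → ℝ) := {z | z ∈ cube X ∧ G μ z = z}

/-! ### monomials -/

theorem mon_add (z : X → ℝ) (f g : X →₀ ℕ) : mon z (f + g) = mon z f * mon z g := by
  classical
  unfold mon
  rw [Finsupp.prod_add_index']
  · intro a; simp
  · intro a b c; rw [pow_add]

theorem mon_zero (z : X → ℝ) : mon z 0 = 1 := by simp [mon]

theorem mon_single (z : X → ℝ) (u : X) : mon z (Finsupp.single u 1) = z u := by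
  simp [mon]

theorem mon_nonneg {z : X → ℝ} (hz : ∀ x, 0 ≤ z x) (f : X →₀ ℕ) : 0 ≤ mon z f :=
  Finset.prod_nonneg fun y _ => pow_nonneg (hz y) _

theorem mon_pos {z : X → ℝ} (hz : ∀ x, 0 < z x) (f : X →₀ ℕ) : 0 < mon z f :=
  Finset.prod_pos fun y _ => pow_pos (hz y) _

theorem mon_le_one {z : X → ℝ} (hz : z ∈ cube X) (f : X →₀ ℕ) : mon z f ≤ 1 :=
  Finset.prod_le_one (fun y _ => pow_nonneg (hz y).1 _) fun y _ => pow_le_one₀ (hz y).1 (hz y).2

theorem mon_mono {z w : X → ℝ} (hz : ∀ x, 0 ≤ z x) (h : ∀ x, z x ≤ w x) (f : X →₀ ℕ) :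
    mon z f ≤ mon w f :=
  Finset.prod_le_prod (fun y _ => pow_nonneg (hz y) _)
    fun y _ => pow_le_pow_left₀ (hz y) (h y) _

theorem mon_one (f : X →₀ ℕ) : mon (fun _ => (1 : ℝ)) f = 1 := by simp [mon]

/-- if `f u ≠ 0` then one particle at `u` can be split off -/
theorem exists_split {f : X →₀ ℕ} {u : X} (h : f u ≠ 0) :
    ∃ f' : X →₀ ℕ, f = f' + Finsupp.single u 1 := by
  classical
  refine ⟨f - Finsupp.single u 1, ?_⟩
  rw [tsub_add_cancel_of_le]
  rw [Finsupp.single_le_iff]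
  omega

theorem mon_le_apply {z : X → ℝ} (hz : z ∈ cube X) {f : X →₀ ℕ} {u : X} (h : f u ≠ 0) :
    mon z f ≤ z u := by
  obtain ⟨f', rfl⟩ := exists_split h
  rw [mon_add, mon_single]
  have := mon_le_one hz f'
  have h0 := (hz u).1
  nlinarith

/-! ### weights -/

theorem weight_summable (μ : X → PMF (X →₀ ℕ)) (x : X) :
    Summable fun f => (μ x f).toReal :=
  ENNReal.summable_toReal (by rw [(μ x).tsum_coe]; exact ENNReal.one_ne_top)

theorem weight_tsum (μ : X → PMF (X →₀ ℕ)) (x : X) : ∑' f, (μ x f).toReal = 1 := by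
  rw [← ENNReal.tsum_toReal_eq (fun f => (μ x).apply_ne_top f), (μ x).tsum_coe]
  rfl

theorem weight_nonneg (μ : X → PMF (X →₀ ℕ)) (x : X) (f : X →₀ ℕ) : 0 ≤ (μ x f).toReal :=
  ENNReal.toReal_nonneg

theorem weight_pos {μ : X → PMF (X →₀ ℕ)} {x : X} {f : X →₀ ℕ} (h : μ x f ≠ 0) :
    0 < (μ x f).toReal :=
  ENNReal.toReal_pos h ((μ x).apply_ne_top f)

theorem summable_bdd (μ : X → PMF (X →₀ ℕ)) (x : X) {φ : (X →₀ ℕ) → ℝ}
    (h : ∀ f, |φ f| ≤ 1) : Summable fun f => (μ x f).toReal * φ f := by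
  refine Summable.of_norm_bounded (weight_summable μ x) fun f => ?_
  rw [norm_mul, Real.norm_of_nonneg (weight_nonneg μ x f), Real.norm_eq_abs]
  exact mul_le_of_le_one_right (weight_nonneg μ x f) (h f)

theorem abs_mon_le {z : X → ℝ} (hz : z ∈ cube X) (f : X →₀ ℕ) : |mon z f| ≤ 1 := by
  rw [abs_of_nonneg (mon_nonneg (fun x => (hz x).1) f)]
  exact mon_le_one hz f

theorem G_summable (μ : X → PMF (X →₀ ℕ)) {z : X → ℝ} (hz : z ∈ cube X) (x : X) :
    Summable fun f => (μ x f).toReal * mon z f :=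
  summable_bdd μ x (abs_mon_le hz)

theorem G_nonneg (μ : X → PMF (X →₀ ℕ)) {z : X → ℝ} (hz : z ∈ cube X) (x : X) : 0 ≤ G μ z x :=
  tsum_nonneg fun f => mul_nonneg (weight_nonneg μ x f) (mon_nonneg (fun x => (hz x).1) f)

theorem G_mono (μ : X → PMF (X →₀ ℕ)) {z w : X → ℝ} (hz : z ∈ cube X) (hw : w ∈ cube X)
    (h : ∀ x, z x ≤ w x) (x : X) : G μ z x ≤ G μ w x :=
  (G_summable μ hz x).tsum_le_tsum (fun f => mul_le_mul_of_nonneg_left
    (mon_mono (fun x => (hz x).1) h f) (weight_nonneg μ x f)) (G_summable μ hw x)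

theorem one_mem : (fun _ => (1 : ℝ)) ∈ cube X := fun _ => ⟨zero_le_one, le_rfl⟩

theorem zero_mem : (fun _ => (0 : ℝ)) ∈ cube X := fun _ => ⟨le_rfl, zero_le_one⟩

theorem G_one (μ : X → PMF (X →₀ ℕ)) (x : X) : G μ (fun _ => 1) x = 1 := by
  simp only [G, mon_one, mul_one]
  exact weight_tsum μ x

theorem one_mem_FG (μ : X → PMF (X →₀ ℕ)) : (fun _ => (1 : ℝ)) ∈ FG μ :=
  ⟨one_mem, funext fun x => G_one μ x⟩

theorem G_le_one (μ : X → PMF (X →₀ ℕ)) {z : X → ℝ} (hz : z ∈ cube X) (x : X) : G μ z x ≤ 1 := by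
  rw [← G_one μ x]
  exact G_mono μ hz one_mem (fun x => (hz x).2) x

theorem G_mem (μ : X → PMF (X →₀ ℕ)) {z : X → ℝ} (hz : z ∈ cube X) : G μ z ∈ cube X :=
  fun x => ⟨G_nonneg μ hz x, G_le_one μ hz x⟩

theorem G_tendsto (μ : X → PMF (X →₀ ℕ)) {ι : Type*} {l : Filter ι} {z : ι → X → ℝ}
    {w : X → ℝ} (hz : ∀ i, z i ∈ cube X) (h : ∀ x, Tendsto (fun i => z i x) l (𝓝 (w x))) (x : X) :
    Tendsto (fun i => G μ (z i) x) l (𝓝 (G μ w x)) := by
  refine tendsto_tsum_of_dominated_convergence (weight_summable μ x) (fun f => ?_)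
    (Eventually.of_forall fun i f => ?_)
  · apply Tendsto.const_mul
    exact tendsto_finsetProd _ fun y _ => (h y).pow _
  · rw [norm_mul, Real.norm_of_nonneg (weight_nonneg μ x f), Real.norm_eq_abs]
    exact mul_le_of_le_one_right (weight_nonneg μ x f) (abs_mon_le (hz i) f)

/-! ### The truncated problems -/

open Classical in
/-- the operator with boundary value `c` outside the finite set `S` -/
noncomputable def T (μ : X → PMF (X →₀ ℕ)) (S : Finset X) (c : ℝ) (z : X → ℝ) : X → ℝ :=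
  fun x => if x ∈ S then G μ z x else c

/-- its iterates started from `0` -/
noncomputable def Z (μ : X → PMF (X →₀ ℕ)) (S : Finset X) (c : ℝ) : ℕ → X → ℝ
  | 0 => fun _ => 0
  | m + 1 => T μ S c (Z μ S c m)

theorem Z_succ_of_mem (μ : X → PMF (X →₀ ℕ)) {S : Finset X} (c : ℝ) (m : ℕ) {x : X}
    (hx : x ∈ S) : Z μ S c (m + 1) x = G μ (Z μ S c m) x := by simp [Z, T, hx]

theorem Z_succ_of_notMem (μ : X → PMF (X →₀ ℕ)) {S : Finset X} (c : ℝ) (m : ℕ) {x : X}
    (hx : x ∉ S) : Z μ S c (m + 1) x = c := by simp [Z, T, hx]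

theorem T_mem (μ : X → PMF (X →₀ ℕ)) (S : Finset X) {c : ℝ} (hc : c ∈ Set.Icc (0 : ℝ) 1)
    {z : X → ℝ} (hz : z ∈ cube X) : T μ S c z ∈ cube X := by
  intro x
  simp only [T]
  split_ifs
  · exact G_mem μ hz x
  · exact hc

theorem T_mono (μ : X → PMF (X →₀ ℕ)) (S : Finset X) {c : ℝ}
    {z w : X → ℝ} (hz : z ∈ cube X) (hw : w ∈ cube X) (h : ∀ x, z x ≤ w x) (x : X) :
    T μ S c z x ≤ T μ S c w x := by
  simp only [T]
  split_ifs
  · exact G_mono μ hz hw h x
  · exact le_rfl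

theorem Z_mem (μ : X → PMF (X →₀ ℕ)) (S : Finset X) {c : ℝ} (hc : c ∈ Set.Icc (0 : ℝ) 1)
    (m : ℕ) : Z μ S c m ∈ cube X := by
  induction m with
  | zero => exact zero_mem
  | succ m ih => exact T_mem μ S hc ih

theorem Z_le_succ (μ : X → PMF (X →₀ ℕ)) (S : Finset X) {c : ℝ} (hc : c ∈ Set.Icc (0 : ℝ) 1)
    (m : ℕ) : ∀ x, Z μ S c m x ≤ Z μ S c (m + 1) x := by
  induction m with
  | zero => exact fun x => (Z_mem μ S hc 1 x).1
  | succ m ih => exact T_mono μ S (Z_mem μ S hc m) (Z_mem μ S hc (m + 1)) ih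

theorem Z_monotone (μ : X → PMF (X →₀ ℕ)) (S : Finset X) {c : ℝ} (hc : c ∈ Set.Icc (0 : ℝ) 1)
    (x : X) : Monotone fun m => Z μ S c m x :=
  monotone_nat_of_le_succ fun m => Z_le_succ μ S hc m x

/-- the minimal solution of the truncated problem -/
noncomputable def Zi (μ : X → PMF (X →₀ ℕ)) (S : Finset X) (c : ℝ) (x : X) : ℝ :=
  ⨆ m, Z μ S c m x

theorem Z_bdd (μ : X → PMF (X →₀ ℕ)) (S : Finset X) {c : ℝ} (hc : c ∈ Set.Icc (0 : ℝ) 1)
    (x : X) : BddAbove (Set.range fun m => Z μ S c m x) :=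
  ⟨1, by rintro _ ⟨m, rfl⟩; exact (Z_mem μ S hc m x).2⟩

theorem Z_tendsto (μ : X → PMF (X →₀ ℕ)) (S : Finset X) {c : ℝ} (hc : c ∈ Set.Icc (0 : ℝ) 1)
    (x : X) : Tendsto (fun m => Z μ S c m x) atTop (𝓝 (Zi μ S c x)) :=
  tendsto_atTop_ciSup (Z_monotone μ S hc x) (Z_bdd μ S hc x)

theorem Z_le_Zi (μ : X → PMF (X →₀ ℕ)) (S : Finset X) {c : ℝ} (hc : c ∈ Set.Icc (0 : ℝ) 1)
    (m : ℕ) (x : X) : Z μ S c m x ≤ Zi μ S c x := le_ciSup (Z_bdd μ S hc x) m

theorem Zi_mem (μ : X → PMF (X →₀ ℕ)) (S : Finset X) {c : ℝ} (hc : c ∈ Set.Icc (0 : ℝ) 1) :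
    Zi μ S c ∈ cube X :=
  fun x => ⟨Z_le_Zi μ S hc 0 x, ciSup_le fun m => (Z_mem μ S hc m x).2⟩

theorem Zi_of_mem (μ : X → PMF (X →₀ ℕ)) {S : Finset X} {c : ℝ} (hc : c ∈ Set.Icc (0 : ℝ) 1)
    {x : X} (hx : x ∈ S) : G μ (Zi μ S c) x = Zi μ S c x := by
  have h1 : Tendsto (fun m => G μ (Z μ S c m) x) atTop (𝓝 (G μ (Zi μ S c) x)) :=
    G_tendsto μ (fun m => Z_mem μ S hc m) (fun x => Z_tendsto μ S hc x) x
  have h2 := (tendsto_add_atTop_iff_nat 1).2 (Z_tendsto μ S hc x)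
  refine tendsto_nhds_unique h1 (h2.congr fun m => ?_)
  simp [Z, T, hx]

theorem Zi_of_notMem (μ : X → PMF (X →₀ ℕ)) {S : Finset X} {c : ℝ}
    (hc : c ∈ Set.Icc (0 : ℝ) 1) {x : X} (hx : x ∉ S) : Zi μ S c x = c := by
  have h2 := (tendsto_add_atTop_iff_nat 1).2 (Z_tendsto μ S hc x)
  refine tendsto_nhds_unique h2 (tendsto_const_nhds.congr fun m => ?_)
  simp [Z, T, hx]

/-- minimality -/
theorem Zi_le (μ : X → PMF (X →₀ ℕ)) (S : Finset X) {c : ℝ} (hc : c ∈ Set.Icc (0 : ℝ) 1)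
    {w : X → ℝ} (hw : w ∈ cube X) (h1 : ∀ x ∈ S, G μ w x ≤ w x) (h2 : ∀ x ∉ S, c ≤ w x)
    (x : X) : Zi μ S c x ≤ w x := by
  have key : ∀ m, ∀ x, Z μ S c m x ≤ w x := by
    intro m
    induction m with
    | zero => exact fun x => (hw x).1
    | succ m ih =>
      intro x
      simp only [Z, T]
      split_ifs with hx
      · exact le_trans (G_mono μ (Z_mem μ S hc m) hw ih x) (h1 x hx)
      · exact h2 x hx
  exact ciSup_le fun m => key m x

/-! ### Dependence on the boundary value -/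

/-- `b ≤ a`, with `b` and `a - b` nonnegative and nondecreasing on `[0,1]` -/
structure PP (b a : ℝ → ℝ) : Prop where
  nonneg : ∀ c ∈ Set.Icc (0 : ℝ) 1, 0 ≤ b c
  mono : MonotoneOn b (Set.Icc 0 1)
  le : ∀ c ∈ Set.Icc (0 : ℝ) 1, b c ≤ a c
  sub : ∀ c ∈ Set.Icc (0 : ℝ) 1, ∀ d ∈ Set.Icc (0 : ℝ) 1, c ≤ d → a c - b c ≤ a d - b d

theorem PP.mono' {b a : ℝ → ℝ} (h : PP b a) : MonotoneOn a (Set.Icc 0 1) := by
  intro c hc d hd hcd
  have h1 := h.sub c hc d hd hcd
  have h2 := h.mono hc hd hcd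
  linarith

theorem PP.mul {b a b' a' : ℝ → ℝ} (h : PP b a) (h' : PP b' a') :
    PP (fun c => b c * b' c) (fun c => a c * a' c) where
  nonneg c hc := mul_nonneg (h.nonneg c hc) (h'.nonneg c hc)
  mono c hc d hd hcd := mul_le_mul (h.mono hc hd hcd) (h'.mono hc hd hcd) (h'.nonneg c hc)
    (h.nonneg d hd)
  le c hc := mul_le_mul (h.le c hc) (h'.le c hc) (h'.nonneg c hc)
    (le_trans (h.nonneg c hc) (h.le c hc))
  sub c hc d hd hcd := by
    have e : ∀ t, a t * a' t - b t * b' t = a t * (a' t - b' t) + (a t - b t) * b' t := by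
      intro t; ring
    rw [e, e]
    apply add_le_add
    · apply mul_le_mul (h.mono' hc hd hcd) (h'.sub c hc d hd hcd)
      · linarith [h'.le c hc]
      · exact le_trans (h.nonneg d hd) (h.le d hd)
    · apply mul_le_mul (h.sub c hc d hd hcd) (h'.mono hc hd hcd) (h'.nonneg c hc)
      linarith [h.le d hd]

theorem PP.const {r : ℝ} (hr : 0 ≤ r) : PP (fun _ => r) (fun _ => r) where
  nonneg _ _ := hr
  mono _ _ _ _ _ := le_rfl
  le _ _ := le_rfl
  sub _ _ _ _ _ := le_rfl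

theorem PP.id : PP (fun c => c) (fun c => c) where
  nonneg _ hc := hc.1
  mono _ _ _ _ h := h
  le _ _ := le_rfl
  sub _ _ _ _ _ := by simp

theorem PP.pow {b a : ℝ → ℝ} (h : PP b a) (n : ℕ) :
    PP (fun c => b c ^ n) (fun c => a c ^ n) := by
  induction n with
  | zero => simpa using PP.const zero_le_one
  | succ n ih =>
    have := ih.mul h
    simpa [pow_succ] using this

theorem PP.prod {b a : X → ℝ → ℝ} (h : ∀ y, PP (b y) (a y)) (s : Finset X) (f : X →₀ ℕ) :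
    PP (fun c => ∏ y ∈ s, b y c ^ f y) (fun c => ∏ y ∈ s, a y c ^ f y) := by
  classical
  induction s using Finset.induction_on with
  | empty => simpa using PP.const zero_le_one
  | insert y s hy ih =>
    have := ((h y).pow (f y)).mul ih
    simpa [Finset.prod_insert hy] using this

theorem PP.mon {b a : X → ℝ → ℝ} (h : ∀ y, PP (b y) (a y)) (f : X →₀ ℕ) :
    PP (fun c => mon (fun y => b y c) f) (fun c => mon (fun y => a y c) f) :=
  PP.prod h f.support f

theorem PP.G (μ : X → PMF (X →₀ ℕ)) {b a : X → ℝ → ℝ} (h : ∀ y, PP (b y) (a y))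
    (ha : ∀ y, ∀ c ∈ Set.Icc (0 : ℝ) 1, a y c ≤ 1) (x : X) :
    PP (fun c => G μ (fun y => b y c) x) (fun c => G μ (fun y => a y c) x) := by
  have hcb : ∀ c ∈ Set.Icc (0 : ℝ) 1, (fun y => b y c) ∈ cube X := fun c hc y =>
    ⟨(h y).nonneg c hc, le_trans ((h y).le c hc) (ha y c hc)⟩
  have hca : ∀ c ∈ Set.Icc (0 : ℝ) 1, (fun y => a y c) ∈ cube X := fun c hc y =>
    ⟨le_trans ((h y).nonneg c hc) ((h y).le c hc), ha y c hc⟩
  refine ⟨fun c hc => G_nonneg μ (hcb c hc) x, fun c hc d hd hcd =>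
    G_mono μ (hcb c hc) (hcb d hd) (fun y => (h y).mono hc hd hcd) x, fun c hc =>
    G_mono μ (hcb c hc) (hca c hc) (fun y => (h y).le c hc) x, fun c hc d hd hcd => ?_⟩
  simp only [BRW.G]
  rw [← (G_summable μ (hca c hc) x).tsum_sub (G_summable μ (hcb c hc) x),
    ← (G_summable μ (hca d hd) x).tsum_sub (G_summable μ (hcb d hd) x)]
  refine ((G_summable μ (hca c hc) x).sub (G_summable μ (hcb c hc) x)).tsum_le_tsum
    (fun f => ?_) ((G_summable μ (hca d hd) x).sub (G_summable μ (hcb d hd) x))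
  rw [← mul_sub, ← mul_sub]
  exact mul_le_mul_of_nonneg_left ((PP.mon h f).sub c hc d hd hcd) (weight_nonneg μ x f)

theorem Z_PP (μ : X → PMF (X →₀ ℕ)) (S : Finset X) (m : ℕ) :
    ∀ x, PP (fun c => Z μ S c m x) (fun c => Z μ S c (m + 1) x) := by
  induction m with
  | zero =>
    intro x
    by_cases hx : x ∈ S
    · refine ⟨fun _ _ => le_rfl, fun _ _ _ _ _ => le_rfl, fun c hc => Z_le_succ μ S hc 0 x,
        fun c _ d _ _ => ?_⟩
      simp [Z, T, hx]
    · refine ⟨fun _ _ => le_rfl, fun _ _ _ _ _ => le_rfl, fun c hc => Z_le_succ μ S hc 0 x,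
        fun c _ d _ hcd => ?_⟩
      simpa [Z, T, hx] using hcd
  | succ m ih =>
    intro x
    by_cases hx : x ∈ S
    · have := PP.G μ ih (fun y c hc => (Z_mem μ S hc (m + 1) y).2) x
      simp only [Z_succ_of_mem μ _ _ hx]
      exact this
    · have := PP.id
      simp only [Z_succ_of_notMem μ _ _ hx]
      exact this

theorem Z_sub_mono (μ : X → PMF (X →₀ ℕ)) (S : Finset X) (m k : ℕ) (x : X) :
    ∀ c ∈ Set.Icc (0 : ℝ) 1, Z μ S c (m + k) x - Z μ S c m x ≤
      Z μ S 1 (m + k) x - Z μ S 1 m x := by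
  intro c hc
  induction k with
  | zero => simp
  | succ k ih =>
    have := (Z_PP μ S (m + k) x).sub c hc 1 (by simp) hc.2
    simp only [← add_assoc]
    linarith

theorem Zi_sub_le (μ : X → PMF (X →₀ ℕ)) (S : Finset X) (m : ℕ) (x : X) :
    ∀ c ∈ Set.Icc (0 : ℝ) 1, Zi μ S c x - Z μ S c m x ≤ Zi μ S 1 x - Z μ S 1 m x := by
  intro c hc
  have h1 : Tendsto (fun k => Z μ S c (m + k) x - Z μ S c m x) atTop
      (𝓝 (Zi μ S c x - Z μ S c m x)) := by
    have := (tendsto_add_atTop_iff_nat m).2 (Z_tendsto μ S hc x)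
    refine (this.sub_const _).congr fun k => ?_
    rw [add_comm]
  have h2 : Tendsto (fun k => Z μ S 1 (m + k) x - Z μ S 1 m x) atTop
      (𝓝 (Zi μ S 1 x - Z μ S 1 m x)) := by
    have := (tendsto_add_atTop_iff_nat m).2 (Z_tendsto μ S (c := 1) (by simp) x)
    refine (this.sub_const _).congr fun k => ?_
    rw [add_comm]
  exact le_of_tendsto_of_tendsto' h1 h2 fun k => Z_sub_mono μ S m k x c hc

theorem Z_continuousOn (μ : X → PMF (X →₀ ℕ)) (S : Finset X) (m : ℕ) :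
    ∀ x, ContinuousOn (fun c => Z μ S c m x) (Set.Icc 0 1) := by
  induction m with
  | zero => intro x; exact continuousOn_const
  | succ m ih =>
    intro x
    by_cases hx : x ∈ S
    · simp only [Z, T, hx, if_true, G]
      refine continuousOn_tsum (fun f => ?_) (weight_summable μ x) (fun f c hc => ?_)
      · apply ContinuousOn.mul continuousOn_const
        exact continuousOn_finsetProd _ fun y _ => (ih y).pow _
      · rw [norm_mul, Real.norm_of_nonneg (weight_nonneg μ x f), Real.norm_eq_abs]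
        exact mul_le_of_le_one_right (weight_nonneg μ x f) (abs_mon_le (Z_mem μ S hc m) f)
    · simp only [Z, T, hx, if_false]
      exact continuousOn_id

theorem Zi_continuousOn (μ : X → PMF (X →₀ ℕ)) (S : Finset X) (x : X) :
    ContinuousOn (fun c => Zi μ S c x) (Set.Icc 0 1) := by
  have h : TendstoUniformlyOn (fun m c => Z μ S c m x) (fun c => Zi μ S c x) atTop
      (Set.Icc 0 1) := by
    rw [Metric.tendstoUniformlyOn_iff]
    intro ε hε
    have h1 := Z_tendsto μ S (c := 1) (by simp) x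
    rw [Metric.tendsto_atTop] at h1
    obtain ⟨N, hN⟩ := h1 ε hε
    filter_upwards [eventually_ge_atTop N] with m hm c hc
    have h2 := hN m hm
    rw [Real.dist_eq, abs_sub_comm] at h2
    rw [Real.dist_eq, abs_of_nonneg (sub_nonneg.2 (Z_le_Zi μ S hc m x))]
    exact lt_of_le_of_lt (Zi_sub_le μ S m x c hc) (lt_of_le_of_lt (le_abs_self _) h2)
  exact h.continuousOn (Frequently.of_forall fun m => Z_continuousOn μ S m x)

/-- **Existence of fixed points with prescribed value.** -/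
theorem exists_fixed (μ : X → PMF (X →₀ ℕ)) (x : X) (v : ℝ)
    (h0 : ∀ S : Finset X, Zi μ S 0 x ≤ v) (h1 : ∀ S : Finset X, v ≤ Zi μ S 1 x) :
    ∃ z ∈ FG μ, z x = v := by
  classical
  have hc : ∀ S : Finset X, ∃ c ∈ Set.Icc (0 : ℝ) 1, Zi μ S c x = v := by
    intro S
    have := intermediate_value_Icc (zero_le_one) (Zi_continuousOn μ S x)
    obtain ⟨c, hc, h⟩ := this ⟨h0 S, h1 S⟩
    exact ⟨c, hc, h⟩
  choose c hc hcv using hc
  let U : Ultrafilter (Finset X) := Ultrafilter.of atTop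
  have hU : (U : Filter (Finset X)) ≤ atTop := Ultrafilter.of_le atTop
  have hlim : ∀ y, ∃ w ∈ Set.Icc (0 : ℝ) 1, Tendsto (fun S => Zi μ S (c S) y) U (𝓝 w) := by
    intro y
    have := (isCompact_Icc (a := (0 : ℝ)) (b := 1)).ultrafilter_le_nhds
      (U.map fun S => Zi μ S (c S) y) ?_
    · exact this
    · rw [le_principal_iff]
      have : (fun S => Zi μ S (c S) y) ⁻¹' Set.Icc 0 1 ∈ (U : Filter (Finset X)) :=
        univ_mem' fun S => Zi_mem μ S (hc S) y
      exact this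
  choose z hz hzlim using hlim
  refine ⟨z, ⟨fun y => hz y, ?_⟩, ?_⟩
  · funext y
    have h2 := G_tendsto μ (fun S => Zi_mem μ S (hc S)) hzlim y
    refine tendsto_nhds_unique h2 ((hzlim y).congr' ?_)
    have h3 : ∀ᶠ S in (U : Filter (Finset X)), y ∈ S := by
      apply hU
      filter_upwards [eventually_ge_atTop ({y} : Finset X)] with S hS
      exact hS (Finset.mem_singleton_self y)
    filter_upwards [h3] with S hS
    exact (Zi_of_mem μ (hc S) hS).symm
  · refine tendsto_nhds_unique (hzlim x) (tendsto_const_nhds.congr fun S => (hcv S).symm)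

/-- If the values of the fixed points at `x` may be anything in an interval, there are
uncountably many of them. -/
theorem not_countable (μ : X → PMF (X →₀ ℕ)) (x : X) {a b : ℝ} (hab : a < b)
    (h0 : ∀ S : Finset X, Zi μ S 0 x ≤ a) (h1 : ∀ S : Finset X, b ≤ Zi μ S 1 x) :
    ¬ (FG μ).Countable := by
  intro hcount
  have h2 : Set.Ioo a b ⊆ (fun z : X → ℝ => z x) '' FG μ := by
    intro v hv
    obtain ⟨z, hz, hzx⟩ := exists_fixed μ x v (fun S => le_trans (h0 S) hv.1.le)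
      (fun S => le_trans hv.2.le (h1 S))
    exact ⟨z, hz, hzx⟩
  have h3 : (Set.Ioo a b).Countable := (hcount.image _).mono h2
  exact (Cardinal.Real.Ioo_countable_iff.1 h3).not_gt hab

end Pool.Agent.V1164.BRW
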