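import Pool.Agent.V1164.BRW.Dich

open Filter Topology MeasureTheory ProbabilityTheory
open scoped ENNReal

namespace Pool.Agent.V1164.BRW

variable {X : Type*}

/-- configurations of particles carry the discrete σ-algebra -/
instance instMeasurableSpaceConf : MeasurableSpace (X →₀ ℕ) := ⊤

instance instDiscreteConf : DiscreteMeasurableSpace (X →₀ ℕ) := ⟨fun _ => trivial⟩

/-- `ω (n, x, i)` is the offspring of the `i`-th particle sitting at `x` in generation `n` -/
abbrev Draws (X : Type*) : Type _ := ℕ × X × ℕ → (X →₀ ℕ)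

/-- the law of the draws: independent, the draw `(n, x, i)` has law `μ x` -/
noncomputable def law (μ : X → PMF (X →₀ ℕ)) : Measure (Draws X) :=
  Measure.infinitePi fun l : ℕ × X × ℕ => (μ l.2.1).toMeasure

/-- the configuration in generation `n` of the process started from one particle at `x` -/
noncomputable def eta (x : X) : ℕ → Draws X → (X →₀ ℕ)
  | 0, _ => Finsupp.single x 1
  | n + 1, ω => (eta x n ω).sum fun y k => ∑ i ∈ Finset.range k, ω (n, y, i)

/-- the probability that the process started from one particle at `x` goes extinct in `A` -/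
noncomputable def q (μ : X → PMF (X →₀ ℕ)) (A : Set X) (x : X) : ℝ :=
  (law μ).real {ω | ∀ᶠ n in atTop, ∀ y ∈ A, eta x n ω y = 0}

/-- the set of extinction probability vectors -/
def EG (μ : X → PMF (X →₀ ℕ)) : Set (X → ℝ) := Set.range fun A : Set X => q μ A

instance (μ : X → PMF (X →₀ ℕ)) : IsProbabilityMeasure (law μ) := by
  unfold law; infer_instance

theorem law_eval (μ : X → PMF (X →₀ ℕ)) (l : ℕ × X × ℕ) :
    (law μ).map (fun ω => ω l) = (μ l.2.1).toMeasure := by
  unfold law
  exact Measure.infinitePi_map_eval _ l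

section Moments

set_option linter.unusedSectionVars false

variable [Countable X]

instance instCountableConf : Countable (X →₀ ℕ) := inferInstance

theorem lintegral_pmf (p : PMF (X →₀ ℕ)) (φ : (X →₀ ℕ) → ℝ≥0∞) :
    ∫⁻ f, φ f ∂p.toMeasure = ∑' f, p f * φ f := by
  rw [lintegral_countable']
  apply tsum_congr
  intro f
  rw [PMF.toMeasure_apply_singleton _ _ (MeasurableSet.singleton f), mul_comm]

theorem lintegral_eval (μ : X → PMF (X →₀ ℕ)) (l : ℕ × X × ℕ) (φ : (X →₀ ℕ) → ℝ≥0∞) :
    ∫⁻ ω, φ (ω l) ∂(law μ) = ∑' f, μ l.2.1 f * φ f := by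
  rw [← lintegral_map (f := φ) (g := fun ω : Draws X => ω l) (Measurable.of_discrete)
    (measurable_pi_apply l), law_eval, lintegral_pmf]

theorem ae_support (μ : X → PMF (X →₀ ℕ)) : ∀ᵐ ω ∂(law μ), ∀ l, μ l.2.1 (ω l) ≠ 0 := by
  rw [ae_all_iff]
  intro l
  have h1 : ∀ᵐ f ∂((law μ).map (fun ω => ω l)), μ l.2.1 f ≠ 0 := by
    rw [law_eval, ae_iff]
    simp only [not_not]
    rw [PMF.toMeasure_apply_eq_zero_iff _ (MeasurableSet.of_discrete)]
    rw [Set.disjoint_left]
    intro f hf hf0
    exact (PMF.mem_support_iff _ _).1 hf hf0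
  exact ae_of_ae_map (measurable_pi_apply l).aemeasurable h1

/-- `eta x n` is measurable for any σ-algebra making the earlier draws measurable -/
theorem measurable_eta (x : X) {m : MeasurableSpace (Draws X)} (n : ℕ)
    (h : ∀ k < n, ∀ y i, Measurable[m] fun ω : Draws X => ω (k, y, i)) :
    Measurable[m] (eta x n) := by
  induction n with
  | zero => exact measurable_const
  | succ n ih =>
    have ih' := ih fun k hk y i => h k (by omega) y i
    have key : ∀ g : X →₀ ℕ, Measurable[m] fun ω : Draws X =>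
        g.sum fun y k => ∑ i ∈ Finset.range k, ω (n, y, i) := by
      intro g
      apply Finset.measurable_fun_sum
      intro y _
      apply Finset.measurable_fun_sum
      intro i _
      exact h n (by omega) y i
    have h2 : Measurable (fun p : (X →₀ ℕ) × Draws X =>
        p.1.sum fun y k => ∑ i ∈ Finset.range k, p.2 (n, y, i)) :=
      measurable_from_prod_countable_right fun g => key g
    exact h2.comp (Measurable.prodMk ih' measurable_id)

/-- `∑_y f(y) h(y)` -/
noncomputable def lin (h : X → ℝ≥0∞) (f : X →₀ ℕ) : ℝ≥0∞ := f.sum fun y k => k * h y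

theorem lin_add (h : X → ℝ≥0∞) (f g : X →₀ ℕ) : lin h (f + g) = lin h f + lin h g := by
  classical
  unfold lin
  rw [Finsupp.sum_add_index']
  · intro a; simp
  · intro a b c; push_cast; ring

theorem lin_zero (h : X → ℝ≥0∞) : lin h 0 = 0 := by simp [lin]

theorem lin_single (h : X → ℝ≥0∞) (x : X) : lin h (Finsupp.single x 1) = h x := by
  simp [lin]

theorem lin_sum (h : X → ℝ≥0∞) {ι : Type*} (s : Finset ι) (f : ι → (X →₀ ℕ)) :
    lin h (∑ i ∈ s, f i) = ∑ i ∈ s, lin h (f i) := by
  classical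
  induction s using Finset.induction_on with
  | empty => simp [lin_zero]
  | insert a s ha ih => rw [Finset.sum_insert ha, Finset.sum_insert ha, lin_add, ih]

/-- the label `(n, y, i)` is used by the process started at `x` -/
def Used (x : X) (ω : Draws X) (l : ℕ × X × ℕ) : Prop := l.2.2 < eta x l.1 ω l.2.1

open Classical in
theorem sum_used (x : X) (ω : Draws X) (n : ℕ) (ψ : X → ℕ → ℝ≥0∞) :
    ∑' p : X × ℕ, (if Used x ω (n, p) then ψ p.1 p.2 else 0) =
      (eta x n ω).sum fun y k => ∑ i ∈ Finset.range k, ψ y i := by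
  rw [ENNReal.tsum_prod']
  have h1 : ∀ y, ∑' i : ℕ, (if Used x ω (n, (y, i)) then ψ y i else 0) =
      ∑ i ∈ Finset.range (eta x n ω y), ψ y i := by
    intro y
    rw [tsum_eq_sum (s := Finset.range (eta x n ω y))]
    · apply Finset.sum_congr rfl
      intro i hi
      rw [if_pos]
      exact Finset.mem_range.1 hi
    · intro i hi
      rw [if_neg]
      intro h
      exact hi (Finset.mem_range.2 h)
  simp only [h1]
  rw [tsum_eq_sum (s := (eta x n ω).support)]
  · rfl
  · intro y hy
    rw [Finsupp.notMem_support_iff.1 hy]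
    simp

theorem meas_ind {Ω : Type*} {m : MeasurableSpace Ω} {s : Set Ω} (hs : MeasurableSet[m] s) :
    Measurable[m] (s.indicator (1 : Ω → ℝ≥0∞)) := measurable_one.indicator hs

theorem indep_used (μ : X → PMF (X →₀ ℕ)) (x : X) (l : ℕ × X × ℕ) (φ : (X →₀ ℕ) → ℝ≥0∞) :
    ∫⁻ ω, ({ω | Used x ω l}.indicator 1 ω) * φ (ω l) ∂(law μ) =
      (law μ) {ω | Used x ω l} * ∑' f, μ l.2.1 f * φ f := by
  classical
  have hind : iIndep (fun l' : ℕ × X × ℕ => MeasurableSpace.comap (fun ω : Draws X => ω l')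
      (inferInstance : MeasurableSpace (X →₀ ℕ))) (law μ) := by
    have := iIndepFun_infinitePi (P := fun l : ℕ × X × ℕ => (μ l.2.1).toMeasure)
      (X := fun _ f => f) (fun _ => measurable_id)
    exact this
  have h1 := indep_iSup_of_disjoint (fun l' => (measurable_pi_apply l').comap_le) hind
    (S := {l' | l'.1 < l.1}) (T := {l}) (by
      rw [Set.disjoint_singleton_right]
      simp)
  have hle : ∀ T : Set (ℕ × X × ℕ), (⨆ l' ∈ T, MeasurableSpace.comap
      (fun ω : Draws X => ω l') (inferInstance : MeasurableSpace (X →₀ ℕ))) ≤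
        MeasurableSpace.pi := fun T =>
    iSup₂_le fun l' _ => (measurable_pi_apply l').comap_le
  have h2 := lintegral_mul_eq_lintegral_mul_lintegral_of_independent_measurableSpace
    (hle _) (hle _) h1 (f := {ω | Used x ω l}.indicator 1) (g := fun ω => φ (ω l)) ?_ ?_
  · rw [h2, lintegral_eval]
    congr 1
    rw [lintegral_indicator_one]
    have h3 : Measurable (eta x l.1) := measurable_eta x l.1 fun k _ y i => measurable_pi_apply _
    exact h3 (MeasurableSet.of_discrete (s := {f : X →₀ ℕ | l.2.2 < f l.2.1}))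
  · have h3 := measurable_eta x (m := ⨆ l' ∈ {l' : ℕ × X × ℕ | l'.1 < l.1},
      MeasurableSpace.comap (fun ω : Draws X => ω l')
        (inferInstance : MeasurableSpace (X →₀ ℕ))) l.1 fun k hk y i => by
      apply Measurable.mono (comap_measurable (fun ω : Draws X => ω (k, y, i))) _ le_rfl
      exact le_iSup₂_of_le (k, y, i) hk le_rfl
    have h5 := h3 (MeasurableSet.of_discrete (s := {f : X →₀ ℕ | l.2.2 < f l.2.1}))
    exact meas_ind h5
  · have h4 : Measurable[⨆ l' ∈ ({l} : Set (ℕ × X × ℕ)),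
      MeasurableSpace.comap (fun ω : Draws X => ω l')
        (inferInstance : MeasurableSpace (X →₀ ℕ))] (fun ω : Draws X => ω l) := by
      apply Measurable.mono (comap_measurable (fun ω : Draws X => ω l)) _ le_rfl
      exact le_iSup₂_of_le l rfl le_rfl
    exact (Measurable.of_discrete (f := φ)).comp h4

theorem meas_used (x : X) (l : ℕ × X × ℕ) : MeasurableSet {ω : Draws X | Used x ω l} := by
  have h3 : Measurable (eta x l.1) := measurable_eta x l.1 fun k _ y i => measurable_pi_apply _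
  exact h3 (MeasurableSet.of_discrete (s := {f : X →₀ ℕ | l.2.2 < f l.2.1}))

theorem mean_used (μ : X → PMF (X →₀ ℕ)) (x : X) (n : ℕ) (Φ : X → (X →₀ ℕ) → ℝ≥0∞) :
    ∑' p : X × ℕ, ∫⁻ ω, ({ω | Used x ω (n, p)}.indicator 1 ω) * Φ p.1 (ω (n, p)) ∂(law μ) =
      ∫⁻ ω, lin (fun y => ∑' f, μ y f * Φ y f) (eta x n ω) ∂(law μ) := by
  classical
  have h1 : ∀ p : X × ℕ, ∫⁻ ω, ({ω | Used x ω (n, p)}.indicator 1 ω) * Φ p.1 (ω (n, p)) ∂(law μ) =
      ∫⁻ ω, (if Used x ω (n, p) then ∑' f, μ p.1 f * Φ p.1 f else 0) ∂(law μ) := by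
    intro p
    rw [indep_used μ x (n, p) (Φ p.1)]
    have h2 : ∀ ω : Draws X, (if Used x ω (n, p) then ∑' f, μ p.1 f * Φ p.1 f else 0) =
        {ω | Used x ω (n, p)}.indicator (fun _ => ∑' f, μ p.1 f * Φ p.1 f) ω := by
      intro ω
      simp only [Set.indicator_apply, Set.mem_ofPred_eq]
    simp only [h2]
    rw [lintegral_indicator_const (meas_used x (n, p)), mul_comm]
  simp only [h1]
  rw [← lintegral_tsum]
  · apply lintegral_congr
    intro ω
    rw [sum_used x ω n (fun y _ => ∑' f, μ y f * Φ y f)]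
    unfold lin
    simp
  · intro p
    apply Measurable.aemeasurable
    exact Measurable.ite (meas_used x (n, p)) measurable_const measurable_const

/-- the mean operator -/
noncomputable def Mn (μ : X → PMF (X →₀ ℕ)) (h : X → ℝ≥0∞) (x : X) : ℝ≥0∞ :=
  ∑' f, μ x f * lin h f

theorem mean_step (μ : X → PMF (X →₀ ℕ)) (x : X) (h : X → ℝ≥0∞) (n : ℕ) :
    ∫⁻ ω, lin h (eta x (n + 1) ω) ∂(law μ) = ∫⁻ ω, lin (Mn μ h) (eta x n ω) ∂(law μ) := by
  classical
  have h0 := mean_used μ x n (fun _ f => lin h f)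
  have e : (fun y => ∑' f, μ y f * lin h f) = Mn μ h := rfl
  rw [e] at h0
  rw [← h0, ← lintegral_tsum]
  · apply lintegral_congr
    intro ω
    have h1 : lin h (eta x (n + 1) ω) =
        (eta x n ω).sum fun y k => ∑ i ∈ Finset.range k, lin h (ω (n, y, i)) := by
      simp only [eta]
      unfold Finsupp.sum
      rw [lin_sum]
      apply Finset.sum_congr rfl
      intro y _
      rw [lin_sum]
    rw [h1, ← sum_used x ω n (fun y i => lin h (ω (n, y, i)))]
    apply tsum_congr
    intro p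
    by_cases hp : Used x ω (n, p)
    · simp [hp, Set.indicator_apply]
    · simp [hp, Set.indicator_apply]
  · intro p
    apply Measurable.aemeasurable
    apply (measurable_one.indicator (meas_used x (n, p))).mul
    exact (Measurable.of_discrete (f := lin h)).comp (measurable_pi_apply _)

theorem lin_mono {h h' : X → ℝ≥0∞} (hh : ∀ y, h y ≤ h' y) (f : X →₀ ℕ) : lin h f ≤ lin h' f :=
  Finset.sum_le_sum fun y _ => mul_le_mul_right (hh y) _

theorem lin_smul (c : ℝ≥0∞) (h : X → ℝ≥0∞) (f : X →₀ ℕ) :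
    lin (fun y => c * h y) f = c * lin h f := by
  unfold lin Finsupp.sum
  rw [Finset.mul_sum]
  apply Finset.sum_congr rfl
  intro y _
  ring

theorem mean_le {μ : X → PMF (X →₀ ℕ)} {h : X → ℝ≥0∞} {ρ : ℝ≥0∞}
    (hM : ∀ y, Mn μ h y ≤ ρ * h y) (x : X) (n : ℕ) :
    ∫⁻ ω, lin h (eta x n ω) ∂(law μ) ≤ ρ ^ n * h x := by
  induction n with
  | zero => simp [eta, lin_single]
  | succ n ih =>
    rw [mean_step]
    calc ∫⁻ ω, lin (Mn μ h) (eta x n ω) ∂(law μ)
        ≤ ∫⁻ ω, ρ * lin h (eta x n ω) ∂(law μ) := by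
          apply lintegral_mono
          intro ω
          show lin (Mn μ h) (eta x n ω) ≤ ρ * lin h (eta x n ω)
          rw [← lin_smul]
          exact lin_mono hM _
      _ = ρ * ∫⁻ ω, lin h (eta x n ω) ∂(law μ) := by
          rw [lintegral_const_mul]
          have h3 : Measurable (eta x n) :=
            measurable_eta x n fun k _ y i => measurable_pi_apply _
          exact (Measurable.of_discrete (f := lin h)).comp h3
      _ ≤ ρ * (ρ ^ n * h x) := mul_le_mul_right ih _
      _ = ρ ^ (n + 1) * h x := by ring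

open Classical in
theorem sum_special_le {μ : X → PMF (X →₀ ℕ)} {h : X → ℝ≥0∞} {ρ C : ℝ≥0∞}
    (hM : ∀ y, Mn μ h y ≤ ρ * h y) (E : X → Set (X →₀ ℕ))
    (hE : ∀ y, ∑' f, μ y f * (E y).indicator 1 f ≤ C * h y) (x : X) :
    ∑' l : ℕ × X × ℕ, (law μ) {ω | Used x ω l ∧ ω l ∈ E l.2.1} ≤ C * ((1 - ρ)⁻¹ * h x) := by
  rw [ENNReal.tsum_prod']
  have h1 : ∀ n : ℕ, ∑' p : X × ℕ, (law μ) {ω | Used x ω (n, p) ∧ ω (n, p) ∈ E p.1} ≤
      C * (ρ ^ n * h x) := by
    intro n
    have h2 := mean_used μ x n (fun y f => (E y).indicator 1 f)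
    have h3 : ∀ p : X × ℕ, (law μ) {ω | Used x ω (n, p) ∧ ω (n, p) ∈ E p.1} =
        ∫⁻ ω, ({ω | Used x ω (n, p)}.indicator 1 ω) * (E p.1).indicator 1 (ω (n, p)) ∂(law μ) := by
      intro p
      have h4 : MeasurableSet {ω : Draws X | Used x ω (n, p) ∧ ω (n, p) ∈ E p.1} := by
        apply (meas_used x (n, p)).inter
        exact (measurable_pi_apply (n, p)) (MeasurableSet.of_discrete (s := E p.1))
      rw [← lintegral_indicator_one h4]
      apply lintegral_congr
      intro ω
      by_cases hp : Used x ω (n, p) <;> by_cases hq : ω (n, p) ∈ E p.1 <;>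
        simp [Set.indicator_apply, hp, hq]
    simp only [h3]
    rw [h2]
    calc ∫⁻ ω, lin (fun y => ∑' f, μ y f * (E y).indicator 1 f) (eta x n ω) ∂(law μ)
        ≤ ∫⁻ ω, C * lin h (eta x n ω) ∂(law μ) := by
          apply lintegral_mono
          intro ω
          show lin (fun y => ∑' f, μ y f * (E y).indicator 1 f) (eta x n ω) ≤
            C * lin h (eta x n ω)
          rw [← lin_smul]
          exact lin_mono hE _
      _ = C * ∫⁻ ω, lin h (eta x n ω) ∂(law μ) := by
          rw [lintegral_const_mul]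
          have h3 : Measurable (eta x n) :=
            measurable_eta x n fun k _ y i => measurable_pi_apply _
          exact (Measurable.of_discrete (f := lin h)).comp h3
      _ ≤ C * (ρ ^ n * h x) := mul_le_mul_right (mean_le hM x n) _
  refine le_trans (ENNReal.tsum_le_tsum h1) ?_
  rw [ENNReal.tsum_mul_left, ENNReal.tsum_mul_right, ENNReal.tsum_geometric]

theorem ae_finite_special {μ : X → PMF (X →₀ ℕ)} {h : X → ℝ≥0∞} {ρ C : ℝ≥0∞}
    (hM : ∀ y, Mn μ h y ≤ ρ * h y) (E : X → Set (X →₀ ℕ))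
    (hE : ∀ y, ∑' f, μ y f * (E y).indicator 1 f ≤ C * h y) (x : X)
    (hfin : C * ((1 - ρ)⁻¹ * h x) ≠ ∞) :
    ∀ᵐ ω ∂(law μ), {l | Used x ω l ∧ ω l ∈ E l.2.1}.Finite :=
  ae_finite_setOfPred_mem (s := fun l => {ω | Used x ω l ∧ ω l ∈ E l.2.1})
    (ne_top_of_le_ne_top hfin (sum_special_le hM E hE x))

theorem prob_special_le {μ : X → PMF (X →₀ ℕ)} {h : X → ℝ≥0∞} {ρ C : ℝ≥0∞}
    (hM : ∀ y, Mn μ h y ≤ ρ * h y) (E : X → Set (X →₀ ℕ))
    (hE : ∀ y, ∑' f, μ y f * (E y).indicator 1 f ≤ C * h y) (x : X) :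
    (law μ) {ω | ∃ l, Used x ω l ∧ ω l ∈ E l.2.1} ≤ C * ((1 - ρ)⁻¹ * h x) := by
  refine le_trans ?_ (sum_special_le hM E hE x)
  have : {ω : Draws X | ∃ l, Used x ω l ∧ ω l ∈ E l.2.1} =
      ⋃ l, {ω | Used x ω l ∧ ω l ∈ E l.2.1} := by
    ext ω; simp
  rw [this]
  exact measure_iUnion_le _

end Moments

/-! ### Two-point offspring laws -/

/-- the coin with probability `p` of `true` -/
noncomputable def coin (p : NNReal) (hp : p ≤ 1) : PMF Bool :=
  PMF.ofFintype (fun t => ((cond t p (1 - p) : NNReal) : ℝ≥0∞)) (by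
    rw [Fintype.sum_bool]
    simp only [cond_true, cond_false]
    rw [← ENNReal.coe_add, add_tsub_cancel_of_le hp, ENNReal.coe_one])

theorem coin_true (p : NNReal) (hp : p ≤ 1) : coin p hp true = p := rfl

theorem coin_false (p : NNReal) (hp : p ≤ 1) : coin p hp false = ((1 - p : NNReal) : ℝ≥0∞) := rfl

/-- the law giving `a` with probability `p` and `b` with probability `1 - p` -/
noncomputable def two (p : NNReal) (hp : p ≤ 1) (a b : X →₀ ℕ) : PMF (X →₀ ℕ) :=
  (coin p hp).map fun t => cond t a b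

theorem tsum_two (p : NNReal) (hp : p ≤ 1) (a b : X →₀ ℕ) (φ : (X →₀ ℕ) → ℝ≥0∞) :
    ∑' f, two p hp a b f * φ f = p * φ a + ((1 - p : NNReal) : ℝ≥0∞) * φ b := by
  simp only [two, PMF.map_apply]
  simp only [← ENNReal.tsum_mul_right]
  rw [ENNReal.tsum_comm, tsum_bool]
  rw [tsum_eq_single (cond false a b), tsum_eq_single (cond true a b)]
  · simp only [if_true, coin_true, coin_false, cond_true, cond_false]
    rw [add_comm]
  · intro f hf
    rw [if_neg hf, zero_mul]
  · intro f hf
    rw [if_neg hf, zero_mul]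

theorem two_ne_zero {p : NNReal} {hp : p ≤ 1} {a b f : X →₀ ℕ} (h : two p hp a b f ≠ 0) :
    f = a ∨ f = b := by
  rw [← PMF.mem_support_iff, two, PMF.mem_support_map_iff] at h
  obtain ⟨t, _, ht⟩ := h
  cases t
  · right; exact ht.symm
  · left; exact ht.symm

theorem two_left_ne {p : NNReal} {hp : p ≤ 1} {a b : X →₀ ℕ} (h : p ≠ 0) :
    two p hp a b a ≠ 0 := by
  rw [← PMF.mem_support_iff, two, PMF.mem_support_map_iff]
  refine ⟨true, ?_, rfl⟩
  rw [PMF.mem_support_iff, coin_true]
  exact_mod_cast h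

theorem two_right_ne {p : NNReal} {hp : p ≤ 1} {a b : X →₀ ℕ} (h : p < 1) :
    two p hp a b b ≠ 0 := by
  rw [← PMF.mem_support_iff, two, PMF.mem_support_map_iff]
  refine ⟨false, ?_, rfl⟩
  rw [PMF.mem_support_iff, coin_false]
  have : (1 - p : NNReal) ≠ 0 := (tsub_pos_of_lt h).ne'
  exact_mod_cast this

end Pool.Agent.V1164.BRW
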