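import Pool.Agent.V1164.BRW.Crit

open Filter Topology MeasureTheory ProbabilityTheory
open scoped ENNReal

namespace Pool.Agent.V1164.BRW.Ray

/-- the usual offspring of a particle at `(i,j)`: one child at `(i,j+1)` and, if `i ≥ 1`, one
child at `(i-1,j+1)` -/
noncomputable def base (x : ℕ × ℕ) : ℕ × ℕ →₀ ℕ :=
  Finsupp.single (x.1, x.2 + 1) 1 +
    (if x.1 = 0 then 0 else Finsupp.single (x.1 - 1, x.2 + 1) 1)

/-- the exceptional offspring: two more children, at `(i+1,j)` and at `(0,0)` -/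
noncomputable def expl (x : ℕ × ℕ) : ℕ × ℕ →₀ ℕ :=
  base x + (Finsupp.single (x.1 + 1, x.2) 1 + Finsupp.single (0, 0) 1)

/-- the probability `9^{-(j+1)}` of an exceptional offspring -/
noncomputable def eps (j : ℕ) : NNReal := (1 / 9) ^ (j + 1)

theorem eps_lt (j : ℕ) : eps j < 1 := by
  unfold eps
  apply pow_lt_one₀ (by positivity) _ (by omega)
  rw [div_lt_one (by norm_num)]
  norm_num

theorem eps_ne (j : ℕ) : eps j ≠ 0 := by
  unfold eps
  positivity

/-- the offspring laws on `ℕ × ℕ` -/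
noncomputable def mu (x : ℕ × ℕ) : PMF (ℕ × ℕ →₀ ℕ) := two (eps x.2) (eps_lt _).le (expl x) (base x)

theorem mu_ne {x : ℕ × ℕ} {f : ℕ × ℕ →₀ ℕ} (h : mu x f ≠ 0) : f = expl x ∨ f = base x :=
  two_ne_zero h

theorem base_self (x : ℕ × ℕ) : base x (x.1, x.2 + 1) ≠ 0 := by
  simp [base]

theorem base_down {x : ℕ × ℕ} (h : x.1 ≠ 0) : base x (x.1 - 1, x.2 + 1) ≠ 0 := by
  simp [base, h]

theorem base_ne {x y : ℕ × ℕ} (h : base x y ≠ 0) : y.1 ≤ x.1 ∧ y.2 = x.2 + 1 := by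
  unfold base at h
  by_cases hx : x.1 = 0
  · simp only [hx, if_true, add_zero, Finsupp.single_apply] at h
    split_ifs at h with h2
    · rw [← h2]; simp
    · exact absurd rfl h
  · simp only [hx, if_false, Finsupp.coe_add, Pi.add_apply, Finsupp.single_apply] at h
    by_cases h1 : (x.1, x.2 + 1) = y
    · rw [← h1]; simp
    · by_cases h2 : (x.1 - 1, x.2 + 1) = y
      · rw [← h2]; simp
      · simp [h1, h2] at h

theorem base_le_of_ne {x : ℕ × ℕ} {f : ℕ × ℕ →₀ ℕ} (h : mu x f ≠ 0) (y : ℕ × ℕ)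
    (hy : base x y ≠ 0) : f y ≠ 0 := by
  rcases mu_ne h with rfl | rfl
  · unfold expl
    simp only [Finsupp.coe_add, Pi.add_apply]
    omega
  · exact hy

theorem edge_right (x : ℕ × ℕ) : Edge mu x (x.1, x.2 + 1) :=
  ⟨base x, two_right_ne (eps_lt _), base_self x⟩

theorem edge_up (x : ℕ × ℕ) : Edge mu x (x.1 + 1, x.2) :=
  ⟨expl x, two_left_ne (eps_ne _), by simp [expl]⟩

theorem edge_origin (x : ℕ × ℕ) : Edge mu x (0, 0) :=
  ⟨expl x, two_left_ne (eps_ne _), by simp [expl]⟩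

theorem irr : Irreducible mu := by
  intro x y
  refine (Relation.ReflTransGen.single (edge_origin x)).trans ?_
  have h1 : ∀ i, Relation.ReflTransGen (Edge mu) ((0 : ℕ), (0 : ℕ)) (i, 0) := by
    intro i
    induction i with
    | zero => exact Relation.ReflTransGen.refl
    | succ i ih => exact ih.tail (edge_up (i, 0))
  have h2 : ∀ i j, Relation.ReflTransGen (Edge mu) (i, 0) (i, j) := by
    intro i j
    induction j with
    | zero => exact Relation.ReflTransGen.refl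
    | succ j ih => exact ih.tail (edge_right (i, j))
  exact (h1 y.1).trans (h2 y.1 y.2)

theorem nonsing : NonSingular mu := by
  refine ⟨(0, 0), ?_⟩
  have hle : ∀ s : Set (ℕ × ℕ →₀ ℕ), (mu (0, 0)).toOuterMeasure s ≤ 1 := by
    intro s
    have h1 : (mu (0, 0)).toOuterMeasure Set.univ = 1 :=
      (PMF.toOuterMeasure_apply_eq_one_iff _ _).2 (Set.subset_univ _)
    rw [← h1]
    exact (mu (0, 0)).toOuterMeasure.mono (Set.subset_univ _)
  refine lt_of_le_of_ne (hle _) ?_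
  intro h
  rw [PMF.toOuterMeasure_apply_eq_one_iff] at h
  have h1 : expl (0, 0) ∈ (mu (0, 0)).support := by
    rw [PMF.mem_support_iff]
    exact two_left_ne (eps_ne _)
  have h2 := h h1
  have h3 : expl (0, 0) = Finsupp.single (0, 1) 1 + (Finsupp.single (1, 0) 1 +
      Finsupp.single (0, 0) 1) := by simp [expl, base]
  rw [Set.mem_ofPred_eq, h3, Finsupp.sum_add_index' (by simp) (by simp),
    Finsupp.sum_add_index' (by simp) (by simp)] at h2
  simp at h2

/-- the weight `6^{-j}` -/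
noncomputable def h (x : ℕ × ℕ) : ℝ≥0∞ := (((1 / 6 : NNReal) ^ x.2 : NNReal) : ℝ≥0∞)

theorem h_ne_zero (x : ℕ × ℕ) : h x ≠ 0 := by
  unfold h
  rw [ENNReal.coe_ne_zero]
  positivity

theorem h_ne_top (x : ℕ × ℕ) : h x ≠ ∞ := ENNReal.coe_ne_top

theorem h_le_one (x : ℕ × ℕ) : h x ≤ 1 := by
  unfold h
  rw [← ENNReal.coe_one, ENNReal.coe_le_coe]
  apply pow_le_one₀ (by positivity)
  rw [div_le_one (by norm_num)]
  norm_num

theorem lin_base_le (x : ℕ × ℕ) : lin h (base x) ≤ ((1 / 3 : NNReal) : ℝ≥0∞) * h x := by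
  unfold base
  rw [lin_add, lin_single]
  have h1 : lin h (if x.1 = 0 then 0 else Finsupp.single (x.1 - 1, x.2 + 1) 1) ≤
      (((1 / 6 : NNReal) ^ (x.2 + 1) : NNReal) : ℝ≥0∞) := by
    split_ifs
    · rw [lin_zero]; exact zero_le
    · rw [lin_single]; exact le_rfl
  refine le_trans (add_le_add_right h1 _) ?_
  unfold h
  rw [← ENNReal.coe_add, ← ENNReal.coe_mul, ENNReal.coe_le_coe]
  apply le_of_eq
  rw [pow_succ]
  ring_nf

theorem eps_le (j : ℕ) : eps j ≤ 1 / 9 * (1 / 6) ^ j := by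
  unfold eps
  rw [pow_succ, mul_comm]
  apply mul_le_mul_right
  apply pow_le_pow_left₀ (by positivity)
  rw [← NNReal.coe_le_coe]
  push_cast
  norm_num

theorem hM (y : ℕ × ℕ) : Mn mu h y ≤ ((5 / 9 : NNReal) : ℝ≥0∞) * h y := by
  unfold Mn mu
  rw [tsum_two]
  have h1 : lin h (expl y) = lin h (base y) + (h y + 1) := by
    unfold expl
    rw [lin_add, lin_add, lin_single, lin_single]
    simp [h]
  have h2 : ((eps y.2 : NNReal) : ℝ≥0∞) * lin h (expl y) +
      ((1 - eps y.2 : NNReal) : ℝ≥0∞) * lin h (base y) =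
      lin h (base y) + (eps y.2 : ℝ≥0∞) * (h y + 1) := by
    rw [h1, mul_add]
    have h3 : ((eps y.2 : NNReal) : ℝ≥0∞) + ((1 - eps y.2 : NNReal) : ℝ≥0∞) = 1 := by
      rw [← ENNReal.coe_add, add_tsub_cancel_of_le (eps_lt _).le, ENNReal.coe_one]
    calc _ = (((eps y.2 : NNReal) : ℝ≥0∞) + ((1 - eps y.2 : NNReal) : ℝ≥0∞)) * lin h (base y) +
          (eps y.2 : ℝ≥0∞) * (h y + 1) := by ring
      _ = _ := by rw [h3, one_mul]
  rw [h2]
  have h4 : (eps y.2 : ℝ≥0∞) * (h y + 1) ≤ ((2 / 9 : NNReal) : ℝ≥0∞) * h y := by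
    calc (eps y.2 : ℝ≥0∞) * (h y + 1) ≤ ((1 / 9 * (1 / 6) ^ y.2 : NNReal) : ℝ≥0∞) * (1 + 1) := by
          apply mul_le_mul'
          · exact ENNReal.coe_le_coe.2 (eps_le _)
          · exact add_le_add_left (h_le_one y) 1
      _ = ((2 / 9 : NNReal) : ℝ≥0∞) * h y := by
          unfold h
          rw [← ENNReal.coe_mul, ← ENNReal.coe_one, ← ENNReal.coe_add, ← ENNReal.coe_mul]
          congr 1
          ring_nf
  refine le_trans (add_le_add (lin_base_le y) h4) ?_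
  rw [← add_mul, ← ENNReal.coe_add]
  apply le_of_eq
  congr 2
  rw [← NNReal.coe_inj]
  push_cast
  norm_num

theorem hρ : ((5 / 9 : NNReal) : ℝ≥0∞) < 1 := by
  rw [← ENNReal.coe_one, ENNReal.coe_lt_coe, div_lt_one (by norm_num)]
  norm_num

theorem no_death (x : ℕ × ℕ) : mu x 0 = 0 := by
  by_contra hne
  exact base_le_of_ne hne _ (base_self x) rfl

theorem FG_uncountable : ¬ (FG mu).Countable :=
  FG_not_countable hρ h_ne_zero h_ne_top hM no_death (0, 0)

/-! ### Exceptional offspring -/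

theorem expl_ne_base (x : ℕ × ℕ) : expl x ≠ base x := by
  intro h
  have := DFunLike.congr_fun h (x.1 + 1, x.2)
  simp [expl] at this

theorem hE (y : ℕ × ℕ) : ∑' f, mu y f * ({expl y} : Set (ℕ × ℕ →₀ ℕ)).indicator 1 f ≤
    ((1 / 9 : NNReal) : ℝ≥0∞) * h y := by
  unfold mu
  rw [tsum_two]
  have h1 : ({expl y} : Set (ℕ × ℕ →₀ ℕ)).indicator (1 : (ℕ × ℕ →₀ ℕ) → ℝ≥0∞) (expl y) = 1 := by simp
  have h2 : ({expl y} : Set (ℕ × ℕ →₀ ℕ)).indicator (1 : (ℕ × ℕ →₀ ℕ) → ℝ≥0∞) (base y) = 0 := by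
    simp [(expl_ne_base y).symm]
  rw [h1, h2, mul_one, mul_zero, add_zero]
  unfold h
  rw [← ENNReal.coe_mul, ENNReal.coe_le_coe]
  exact eps_le y.2

theorem bound_le (x : ℕ × ℕ) :
    ((1 / 9 : NNReal) : ℝ≥0∞) * ((1 - ((5 / 9 : NNReal) : ℝ≥0∞))⁻¹ * h x) ≤
      ((1 / 4 : NNReal) : ℝ≥0∞) := by
  have h1 : (1 - ((5 / 9 : NNReal) : ℝ≥0∞)) = ((4 / 9 : NNReal) : ℝ≥0∞) := by
    rw [← ENNReal.coe_one, ← ENNReal.coe_sub]
    congr 1
    apply NNReal.eq
    rw [NNReal.coe_sub (by rw [div_le_one (by norm_num)]; norm_num)]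
    push_cast
    norm_num
  rw [h1, ← ENNReal.coe_inv (by positivity)]
  calc ((1 / 9 : NNReal) : ℝ≥0∞) * (((4 / 9 : NNReal)⁻¹ : NNReal) * h x)
      ≤ ((1 / 9 : NNReal) : ℝ≥0∞) * (((4 / 9 : NNReal)⁻¹ : NNReal) * 1) := by
        gcongr
        exact h_le_one x
    _ = ((1 / 4 : NNReal) : ℝ≥0∞) := by
        rw [mul_one, ← ENNReal.coe_mul]
        congr 1
        rw [← NNReal.coe_inj]
        push_cast
        norm_num

/-- an exceptional offspring occurs at the label `l` -/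
def Exc (x : ℕ × ℕ) (ω : Draws (ℕ × ℕ)) (l : ℕ × (ℕ × ℕ) × ℕ) : Prop :=
  Used x ω l ∧ ω l = expl l.2.1

theorem ae_finite_exc (x : ℕ × ℕ) : ∀ᵐ ω ∂(law mu), {l | Exc x ω l}.Finite := by
  have := ae_finite_special (μ := mu) hM (fun y => {expl y}) hE x
    (ne_top_of_le_ne_top ENNReal.coe_ne_top (bound_le x))
  exact this

theorem prob_exc (x : ℕ × ℕ) : (law mu) {ω | ∃ l, Exc x ω l} ≤ ((1 / 4 : NNReal) : ℝ≥0∞) :=
  le_trans (prob_special_le (μ := mu) hM (fun y => {expl y}) hE x) (bound_le x)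

/-- never visiting the rays of index at least `i` -/
def V (i : ℕ) (x : ℕ × ℕ) : Set (Draws (ℕ × ℕ)) :=
  {ω | ∀ n p, eta x n ω p ≠ 0 → p.1 < i}

section path

variable {x : ℕ × ℕ} {ω : Draws (ℕ × ℕ)}

theorem child_of_base (hsup : ∀ l, mu l.2.1 (ω l) ≠ 0) {n : ℕ} {p v : ℕ × ℕ}
    (hp : eta x n ω p ≠ 0) (hv : base p v ≠ 0) : eta x (n + 1) ω v ≠ 0 := by
  have h1 := base_le_of_ne (hsup (n, p, 0)) v hv
  have h2 := le_eta_succ (used_zero hp) v
  omega

/-- rays below are visited -/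
theorem line (hsup : ∀ l, mu l.2.1 (ω l) ≠ 0) {n i j : ℕ} (hp : eta x n ω (i, j) ≠ 0) (m : ℕ) :
    ∀ l, l ≤ i → i - l ≤ m → eta x (n + m) ω (l, j + m) ≠ 0 := by
  induction m with
  | zero =>
    intro l hl hm
    have : l = i := by omega
    subst this
    exact hp
  | succ m ih =>
    intro l hl hm
    by_cases h1 : i - l ≤ m
    · have h2 := ih l hl h1
      exact child_of_base hsup h2 (base_self _)
    · have h2 := ih (l + 1) (by omega) (by omega)
      have h3 := child_of_base hsup h2 (v := (l, j + m + 1)) (by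
        have := base_down (x := (l + 1, j + m)) (by simp)
        simpa using this)
      exact h3

theorem parent_of_no_exc (hsup : ∀ l, mu l.2.1 (ω l) ≠ 0) {n : ℕ}
    (hno : ∀ p i, ¬ Exc x ω (n, p, i)) {v : ℕ × ℕ} (hv : eta x (n + 1) ω v ≠ 0) :
    ∃ p, eta x n ω p ≠ 0 ∧ v.1 ≤ p.1 ∧ v.2 = p.2 + 1 := by
  obtain ⟨p, i, hu, hpv⟩ := exists_parent hv
  refine ⟨p, eta_ne_of_used hu, ?_⟩
  rcases mu_ne (hsup (n, p, i)) with h1 | h1
  · exact absurd ⟨hu, h1⟩ (hno p i)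
  · rw [h1] at hpv
    exact base_ne hpv

theorem after (hsup : ∀ l, mu l.2.1 (ω l) ≠ 0) {N : ℕ}
    (hno : ∀ n ≥ N, ∀ p i, ¬ Exc x ω (n, p, i)) (m : ℕ) :
    ∀ v, eta x (N + m) ω v ≠ 0 → ∃ p, eta x N ω p ≠ 0 ∧ v.1 ≤ p.1 ∧ v.2 = p.2 + m := by
  induction m with
  | zero => intro v hv; exact ⟨v, hv, le_rfl, rfl⟩
  | succ m ih =>
    intro v hv
    obtain ⟨p, hp, h1, h2⟩ := parent_of_no_exc hsup (hno (N + m) (by omega)) hv
    obtain ⟨p', hp', h3, h4⟩ := ih p hp
    exact ⟨p', hp', by omega, by omega⟩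

theorem exists_last (hfin : {l | Exc x ω l}.Finite) :
    ∃ N, ∀ n ≥ N, ∀ p i, ¬ Exc x ω (n, p, i) := by
  obtain ⟨N, hN⟩ := (hfin.image fun l => l.1).bddAbove
  refine ⟨N + 1, fun n hn p i hE => ?_⟩
  have : n ≤ N := hN ⟨(n, p, i), hE, rfl⟩
  omega

/-- if `A` meets every ray in a finite set below the rays that are reached, the process leaves `A` -/
theorem leaves (hsup : ∀ l, mu l.2.1 (ω l) ≠ 0) (hfin : {l | Exc x ω l}.Finite)
    {A : Set (ℕ × ℕ)} {I : ℕ} (hI : ∀ᶠ n in atTop, ∀ p, eta x n ω p ≠ 0 → p.1 < I)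
    (hA : ∀ i < I, {j | (i, j) ∈ A}.Finite) :
    ∀ᶠ n in atTop, ∀ y ∈ A, eta x n ω y = 0 := by
  obtain ⟨N, hN⟩ := exists_last hfin
  have hB : {p : ℕ × ℕ | p ∈ A ∧ p.1 < I}.Finite := by
    have : {p : ℕ × ℕ | p ∈ A ∧ p.1 < I} ⊆ ⋃ i ∈ Finset.range I,
        (fun j => (i, j)) '' {j | (i, j) ∈ A} := by
      rintro ⟨i, j⟩ ⟨h1, h2⟩
      simp only [Set.mem_iUnion]
      exact ⟨i, Finset.mem_range.2 h2, j, h1, rfl⟩
    refine Set.Finite.subset ?_ this
    apply Set.Finite.biUnion (Finset.finite_toSet _)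
    intro i hi
    exact (hA i (Finset.mem_range.1 hi)).image _
  obtain ⟨J, hJ⟩ := (hB.image fun p => p.2).bddAbove
  filter_upwards [hI, eventually_gt_atTop (N + J)] with n hn hnJ y hy
  by_contra hne
  have h1 := hn y hne
  obtain ⟨m, rfl⟩ : ∃ m, n = N + m := ⟨n - N, by omega⟩
  obtain ⟨p, _, _, h3⟩ := after hsup hN m y hne
  have h4 : y.2 ≤ J := hJ ⟨y, ⟨hy, h1⟩, rfl⟩
  omega

end path

theorem ae_good (x : ℕ × ℕ) : ∀ᵐ ω ∂(law mu), (∀ l, mu l.2.1 (ω l) ≠ 0) ∧
    {l | Exc x ω l}.Finite := (ae_support mu).and (ae_finite_exc x)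

/-- the extinction probabilities of sets with an infinite intersection with some ray -/
theorem q_of_infinite {A : Set (ℕ × ℕ)} {i : ℕ} (hi : {j | (i, j) ∈ A}.Infinite)
    (hlt : ∀ l < i, {j | (l, j) ∈ A}.Finite) (x : ℕ × ℕ) :
    q mu A x = (law mu).real (V i x) := by
  unfold q
  rw [Measure.real, Measure.real]
  congr 1
  apply measure_congr
  filter_upwards [ae_good x] with ω hω
  obtain ⟨hsup, hfin⟩ := hω
  apply propext
  constructor
  · intro hev
    change ∀ᶠ n in atTop, ∀ y ∈ A, eta x n ω y = 0 at hev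
    show ∀ n p, eta x n ω p ≠ 0 → p.1 < i
    rintro n ⟨a, b⟩ hp
    by_contra hcon
    have hcon' : i ≤ a := not_lt.1 hcon
    rw [eventually_atTop] at hev
    obtain ⟨N, hN⟩ := hev
    obtain ⟨j, hj, hjlt⟩ := hi.exists_gt (b + (N + a))
    have h1 := line hsup hp (j - b) i hcon' (by omega)
    have e : b + (j - b) = j := by omega
    rw [e] at h1
    exact h1 (hN _ (by omega) (i, j) hj)
  · intro hV
    change ∀ n p, eta x n ω p ≠ 0 → p.1 < i at hV
    show ∀ᶠ n in atTop, ∀ y ∈ A, eta x n ω y = 0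
    exact leaves hsup hfin (Eventually.of_forall fun n p hp => hV n p hp) hlt

theorem q_of_finite {A : Set (ℕ × ℕ)} (hA : ∀ i, {j | (i, j) ∈ A}.Finite) (x : ℕ × ℕ) :
    q mu A x = 1 := by
  have h1 : ({ω | ∀ᶠ n in atTop, ∀ y ∈ A, eta x n ω y = 0} : Set (Draws (ℕ × ℕ))) =ᵐ[law mu]
      Set.univ := by
    filter_upwards [ae_good x] with ω hω
    obtain ⟨hsup, hfin⟩ := hω
    apply propext
    refine ⟨fun _ => trivial, fun _ => ?_⟩
    show ∀ᶠ n in atTop, ∀ y ∈ A, eta x n ω y = 0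
    obtain ⟨N, hN⟩ := exists_last hfin
    obtain ⟨I, hI⟩ := ((eta x N ω).support.finite_toSet.image fun p => p.1).bddAbove
    refine leaves (I := I + 1) hsup hfin ?_ fun i _ => hA i
    filter_upwards [eventually_ge_atTop N] with n hn p hp
    obtain ⟨m, rfl⟩ : ∃ m, n = N + m := ⟨n - N, by omega⟩
    obtain ⟨p', hp', h2, _⟩ := after hsup hN m p hp
    have h3 : p'.1 ≤ I := hI ⟨p', by
      rw [Finset.mem_coe, Finsupp.mem_support_iff]; exact hp', rfl⟩
    omega
  unfold q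
  rw [Measure.real, measure_congr h1]
  simp

/-- the ray `i` -/
def ray (i : ℕ) : Set (ℕ × ℕ) := {p | p.1 = i}

theorem q_ray (i : ℕ) (x : ℕ × ℕ) : q mu (ray i) x = (law mu).real (V i x) := by
  apply q_of_infinite
  · have : {j | (i, j) ∈ ray i} = Set.univ := by ext j; simp [ray]
    rw [this]
    exact Set.infinite_univ
  · intro l hl
    have : {j | (l, j) ∈ ray i} = ∅ := by
      ext j
      simp only [ray, Set.mem_ofPred_eq, Set.mem_empty_iff_false, iff_false]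
      omega
    rw [this]
    exact Set.finite_empty

theorem EG_subset : EG mu ⊆ insert (fun _ => 1) (Set.range fun i => q mu (ray i)) := by
  classical
  rintro _ ⟨A, rfl⟩
  by_cases hA : ∃ i, {j | (i, j) ∈ A}.Infinite
  · right
    refine ⟨Nat.find hA, funext fun x => ?_⟩
    show q mu (ray (Nat.find hA)) x = q mu A x
    rw [q_ray, q_of_infinite (Nat.find_spec hA)]
    intro l hl
    exact Set.not_infinite.1 (Nat.find_min hA hl)
  · left
    push Not at hA
    funext x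
    exact q_of_finite (fun i => Set.not_infinite.1 (by simpa using hA i)) x

theorem EG_countable : (EG mu).Countable :=
  ((Set.countable_range _).insert _).mono EG_subset

theorem q_ray_self (i : ℕ) : q mu (ray i) (i, 0) = 0 := by
  rw [q_ray]
  have : V i (i, 0) = ∅ := by
    ext ω
    simp only [V, Set.mem_ofPred_eq, Set.mem_empty_iff_false, iff_false]
    intro h
    have := h 0 (i, 0) (eta_zero _ _)
    simp at this
  rw [this]
  simp

theorem q_ray_pos {i i' : ℕ} (h : i < i') : 0 < q mu (ray i') (i, 0) := by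
  rw [q_ray, Measure.real, ENNReal.toReal_pos_iff]
  refine ⟨?_, measure_lt_top _ _⟩
  by_contra hcon
  have h0 : (law mu) (V i' (i, 0)) = 0 := by simpa using hcon
  have h1 : ∀ᵐ ω ∂(law mu), ω ∈ {ω | ∃ l, Exc (i, 0) ω l} := by
    have h2 : ∀ᵐ ω ∂(law mu), ω ∉ V i' (i, 0) := by
      rw [ae_iff]
      simpa using h0
    filter_upwards [h2, ae_good (i, 0)] with ω h3 h4
    by_contra hne
    apply h3
    intro n p hp
    have hno : ∀ n ≥ 0, ∀ p j, ¬ Exc (i, 0) ω (n, p, j) := fun n _ p j hE => hne ⟨_, hE⟩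
    obtain ⟨p', hp', h5, _⟩ := after h4.1 hno n p (by simpa using hp)
    have h6 : p' = (i, 0) := by
      by_contra hne'
      apply hp'
      simp only [eta]
      rw [Finsupp.single_apply, if_neg (Ne.symm hne')]
    rw [h6] at h5
    exact lt_of_le_of_lt h5 h
  have h2 : (law mu) {ω | ∃ l, Exc (i, 0) ω l} = 1 := by
    have : ({ω | ∃ l, Exc (i, 0) ω l} : Set (Draws (ℕ × ℕ))) =ᵐ[law mu] Set.univ := by
      rw [ae_eq_univ]
      exact h1
    rw [measure_congr this]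
    exact measure_univ
  have h3 := prob_exc (i, 0)
  rw [h2, ← ENNReal.coe_one, ENNReal.coe_le_coe, ← NNReal.coe_le_coe] at h3
  push_cast at h3
  norm_num at h3

theorem q_ray_injective : Function.Injective fun i => q mu (ray i) := by
  intro i i' h
  by_contra hne
  rcases lt_or_gt_of_ne hne with hlt | hlt
  · have h1 := congrFun h (i, 0)
    simp only [q_ray_self] at h1
    exact absurd h1 (q_ray_pos hlt).ne
  · have h1 := congrFun h (i', 0)
    simp only [q_ray_self] at h1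
    exact absurd h1 (q_ray_pos hlt).ne'

theorem EG_infinite : (EG mu).Infinite := by
  refine (Set.infinite_range_of_injective q_ray_injective).mono ?_
  rintro _ ⟨i, rfl⟩
  exact ⟨ray i, rfl⟩

end Pool.Agent.V1164.BRW.Ray
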